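import Pool.Agent.H.MP_e23cd6_ag.SG.S.Up

/-!
# Scaling of a system of line bundles
-/

set_option autoImplicit false

open Matrix Topology

namespace Pool.Agent.SG

open St

variable {n : ℕ} {X : Type} [TopologicalSpace X]

/-- The comparison of the metrics in terms of `fL`, `fP`. -/
theorem GSys.cmp' (S : GSys n X) (a b : ℕ) : ∃ C : ℝ, ∀ g y, |(S.D a b).lg g y / S.c a b -
    (a * S.fL g y + (b + 1) * S.fP g y)| ≤ C := S.cmp a b

theorem GSys.cmp_scale (S : GSys n X) (m : ℕ) (hm : 1 ≤ m) (a b : ℕ) : ∃ C : ℝ, ∀ g y,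
    |(S.D (m * a) (m * (b + 1) - 1)).lg g y / S.c (m * a) (m * (b + 1) - 1) -
      (m * (a * S.fL g y) + m * ((b + 1) * S.fP g y))| ≤ C := by
  obtain ⟨C, hC⟩ := S.cmp' (m * a) (m * (b + 1) - 1)
  refine ⟨C, fun g y => ?_⟩
  have h1 : 1 ≤ m * (b + 1) := Nat.le_trans hm (Nat.le_mul_of_pos_right m (Nat.succ_pos b))
  have h2 := hC g y
  rw [Nat.cast_sub h1] at h2
  push_cast at h2
  have e : (m * (a * S.fL g y) + m * ((b + 1) * S.fP g y) : ℝ) =
      m * a * S.fL g y + (m * (b + 1) - 1 + 1) * S.fP g y := by ring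
  rw [e]
  exact h2

/-- The system for `L ^ m` and `P ^ m`. -/
noncomputable def GSys.scale (S : GSys n X) (m : ℕ) (hm : 1 ≤ m) : GSys n X where
  act := S.act
  one := S.one
  mul := S.mul
  cont := S.cont
  c := fun a b => S.c (m * a) (m * (b + 1) - 1)
  c_pos := fun _ _ => S.c_pos _ _
  D := fun a b => S.D (m * a) (m * (b + 1) - 1)
  cmp := by
    intro a b
    obtain ⟨C, hC⟩ := S.cmp_scale m hm a b
    obtain ⟨C1, h1⟩ := S.cmp_scale m hm 1 0
    obtain ⟨C0, h0⟩ := S.cmp_scale m hm 0 0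
    refine ⟨C + (a * (C1 + C0) + (b + 1) * C0), fun g y => ?_⟩
    have e := hC g y
    have e1 := h1 g y
    have e0 := h0 g y
    rw [abs_le] at e e1 e0
    have ha : (0 : ℝ) ≤ a := Nat.cast_nonneg a
    have hb : (0 : ℝ) ≤ b := Nat.cast_nonneg b
    push_cast at e1 e0
    generalize (S.D (m * a) (m * (b + 1) - 1)).lg g y / S.c (m * a) (m * (b + 1) - 1) = x at e ⊢
    generalize (S.D (m * 1) (m * (0 + 1) - 1)).lg g y / S.c (m * 1) (m * (0 + 1) - 1) = x1 at e1 ⊢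
    generalize (S.D (m * 0) (m * (0 + 1) - 1)).lg g y / S.c (m * 0) (m * (0 + 1) - 1) = x0 at e0 ⊢
    generalize S.fL g y = p at e e1 e0 ⊢
    generalize S.fP g y = q at e e1 e0 ⊢
    have k1 := mul_le_mul_of_nonneg_left e1.1 ha
    have k2 := mul_le_mul_of_nonneg_left e1.2 ha
    have k3 := mul_le_mul_of_nonneg_left e0.1 ha
    have k4 := mul_le_mul_of_nonneg_left e0.2 ha
    have k5 := mul_le_mul_of_nonneg_left e0.1 hb
    have k6 := mul_le_mul_of_nonneg_left e0.2 hb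
    rw [abs_le]
    constructor
    · nlinarith [e.1, e0.1, e0.2]
    · nlinarith [e.2, e0.1, e0.2]
  sep := fun _ _ => S.sep _ _

theorem GSys.scale_lev (S : GSys n X) (m : ℕ) (hm : 1 ≤ m) (a b : ℝ) : ∃ C : ℝ, ∀ θ y g,
    |(S.scale m hm).lev a b θ y g - S.lev (m * a) (m * b) θ y g| ≤ C := by
  obtain ⟨C1, h1⟩ := S.cmp_scale m hm 1 0
  obtain ⟨C0, h0⟩ := S.cmp_scale m hm 0 0
  refine ⟨|a| * (C1 + C0) + |b| * C0, fun θ y g => ?_⟩
  have e1 := h1 g y
  have e0 := h0 g y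
  push_cast at e1 e0
  have e : (S.scale m hm).lev a b θ y g - S.lev (m * a) (m * b) θ y g =
      a * (((S.D (m * 1) (m * (0 + 1) - 1)).lg g y / S.c (m * 1) (m * (0 + 1) - 1) -
          (m * (1 * S.fL g y) + m * ((0 + 1) * S.fP g y))) -
        ((S.D (m * 0) (m * (0 + 1) - 1)).lg g y / S.c (m * 0) (m * (0 + 1) - 1) -
          (m * (0 * S.fL g y) + m * ((0 + 1) * S.fP g y)))) +
      b * ((S.D (m * 0) (m * (0 + 1) - 1)).lg g y / S.c (m * 0) (m * (0 + 1) - 1) -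
          (m * (0 * S.fL g y) + m * ((0 + 1) * S.fP g y))) := by
    have e2 : (S.scale m hm).lev a b θ y g = a * ((S.D (m * 1) (m * (0 + 1) - 1)).lg g y /
        S.c (m * 1) (m * (0 + 1) - 1) - (S.D (m * 0) (m * (0 + 1) - 1)).lg g y /
        S.c (m * 0) (m * (0 + 1) - 1)) + b * ((S.D (m * 0) (m * (0 + 1) - 1)).lg g y /
        S.c (m * 0) (m * (0 + 1) - 1)) + ∑ i, θ i * hw g i := rfl
    have e3 : S.lev (m * a) (m * b) θ y g = m * a * S.fL g y + m * b * S.fP g y +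
      ∑ i, θ i * hw g i := rfl
    rw [e2, e3]
    ring
  rw [e]
  refine (abs_add_le _ _).trans (add_le_add ?_ ?_)
  · rw [abs_mul]
    exact mul_le_mul_of_nonneg_left ((abs_sub _ _).trans (add_le_add e1 e0)) (abs_nonneg _)
  · rw [abs_mul]
    exact mul_le_mul_of_nonneg_left e0 (abs_nonneg _)

end Pool.Agent.SG
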