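import Pool.Agent.H.MP_e23cd6_ag.SG.S.BaseB
import Pool.Agent.H.MP_e23cd6_ag.SG.S.Scale

/-!
# A closed invariant set contains a point fixed by the lower triangular matrices
-/

set_option autoImplicit false

namespace Pool.Agent.SG

open Matrix Topology Filter
open St

variable {n : ℕ} {X : Type} [TopologicalSpace X]

namespace GSys

variable (S : GSys n X)

theorem act_v (a b : ℕ) (g : Gp n) (y : X) :
    ∃ z : ℂ, (S.D a b).R.act g ((S.D a b).v y) = z • (S.D a b).v (S.act g y) := by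
  obtain ⟨z, -, hz⟩ := (S.D a b).eqv g y
  exact ⟨z, hz⟩

/-- A point whose vector is preserved up to scalars is fixed. -/
theorem act_eq_of_line (a b : ℕ) {g : Gp n} {y : X} {c : ℂ}
    (h : (S.D a b).R.act g ((S.D a b).v y) = c • (S.D a b).v y) : S.act g y = y := by
  obtain ⟨z, hz, e⟩ := (S.D a b).eqv g y
  symm
  refine S.sep a b y (S.act g y) ⟨z⁻¹ * c, ?_⟩
  rw [← smul_smul, ← h, e, smul_smul, inv_mul_cancel₀ hz, one_smul]

end GSys

section aux

variable {act : Gp n → X → X} (D : PDat n X act)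

theorem PDat.lg_one' (y : X) : D.lg 1 y = 0 := by
  unfold PDat.lg
  rw [D.R.act_one, sub_self, zero_div]

/-- The vector is an eigenvector. -/
theorem PDat.fix_aux1 {H : aa n} {y : X}
    (h : D.lg (dg H 1) y ≤ D.lg (dg H 1) (act (dg H (-1)) y)) :
    ns (D.R.act (dg H 1) (D.v y)) * ns (D.R.act (dg H (-1)) (D.v y)) ≤ ns (D.v y) ^ 2 := by
  have hnv := ns_pos (D.ne y)
  have h2 := D.lg_mul (dg H 1) (dg H (-1)) y
  rw [← dg_add, add_neg_cancel, dg_zero, D.lg_one'] at h2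
  have hp1 := ns_pos (act_ne D.R (dg H 1) (D.ne y))
  have hp2 := ns_pos (act_ne D.R (dg H (-1)) (D.ne y))
  have h3 : D.lg (dg H 1) y + D.lg (dg H (-1)) y ≤ 0 := by linarith
  unfold PDat.lg at h3
  rw [← Real.log_le_log_iff (mul_pos hp1 hp2) (pow_pos hnv 2), Real.log_mul hp1.ne' hp2.ne',
    Real.log_pow]
  push_cast
  linarith

theorem PDat.fix_aux2 {H : aa n} {y : X} {α : ℝ}
    (hsupp : ∀ i, D.v y i ≠ 0 → D.R.lam i H = α) : D.lg (dg H 1) y = α := by
  have hnv := ns_pos (D.ne y)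
  have h1 : ns (D.R.act (dg H 1) (D.v y)) = Real.exp (2 * α) * ns (D.v y) := by
    have h2 := D.R.ns_act_dg H 1 (D.v y)
    rw [Complex.ofReal_one] at h2
    rw [h2]
    unfold ns
    rw [Finset.mul_sum]
    refine Finset.sum_congr rfl fun i _ => ?_
    by_cases hi : D.v y i = 0
    · rw [hi, norm_zero]
      ring
    · rw [hsupp i hi, mul_one]
  unfold PDat.lg
  rw [h1, Real.log_mul (Real.exp_pos _).ne' hnv.ne', Real.log_exp]
  ring

theorem PDat.fix_aux3 {H : aa n} {y : X} {α : ℝ} {u : Gp n}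
    (h : α ≤ D.lg (dg H 1) (act u y)) : Real.exp (2 * α) * ns (D.R.act u (D.v y)) ≤
      ns (D.R.act (dg H 1) (D.R.act u (D.v y))) := by
  have h2 := D.lg_mul (dg H 1) u y
  have hp1 := ns_pos (act_ne D.R u (D.ne y))
  have hp2 := ns_pos (act_ne D.R (dg H 1) (act_ne D.R u (D.ne y)))
  have h3 : D.lg (dg H 1) (act u y) =
      (Real.log (ns (D.R.act (dg H 1) (D.R.act u (D.v y)))) -
        Real.log (ns (D.R.act u (D.v y)))) / 2 := by
    have h4 : D.lg (dg H 1) (act u y) = D.lg (dg H 1 * u) y - D.lg u y := by linarith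
    rw [h4]
    unfold PDat.lg
    rw [D.R.act_mul]
    ring
  rw [h3] at h
  rw [← Real.log_le_log_iff (mul_pos (Real.exp_pos _) hp1) hp2,
    Real.log_mul (Real.exp_pos _).ne' hp1.ne', Real.log_exp]
  linarith

/-- A minimum of the growth is a point whose vector is preserved up to scalars by the lower
triangular matrices. -/
theorem PDat.fix_aux {H : aa n} (hH : StrictAnti H.1)
    (hreg : ∀ i i', D.R.lam i H = D.R.lam i' H → ∀ H' : aa n, D.R.lam i H' = D.R.lam i' H')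
    {y : X} (hmin : ∀ g, D.lg (dg H 1) y ≤ D.lg (dg H 1) (act g y)) {g : Gp n} (hg : IsBm g) :
    ∃ u t : Gp n, g = u * t ∧ (∃ c : ℂ, D.R.act t (D.v y) = c • D.v y) ∧
      D.R.act u (D.v y) = D.v y := by
  obtain ⟨i₀, hi₀⟩ := Function.ne_iff.1 (D.ne y)
  rw [Pi.zero_apply] at hi₀
  have hsupp : ∀ i, D.v y i ≠ 0 → D.R.lam i H = D.R.lam i₀ H := fun i hi =>
    supp_of_growth D.R (D.fix_aux1 (hmin _)) hi hi₀
  have hlg := D.fix_aux2 hsupp
  obtain ⟨u, hu, hgu⟩ := isBm_decomp hg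
  refine ⟨u, _, hgu, ⟨_, act_dgT_of_supp D.R (v := D.v y) (i₀ := i₀)
    (fun i hi => hreg i i₀ (hsupp i hi)) (isBm_prod hg)⟩, ?_⟩
  refine fixed_of_growth D.R hH hsupp hu (D.fix_aux3 ?_)
  rw [← hlg]
  exact hmin u

end aux

namespace GSys

variable (S : GSys n X)

/-- (6.1) A closed invariant set contains a point fixed by the lower triangular matrices. -/
theorem exists_fixed [CompactSpace X] (Z : Set X) (hZ : IsClosed Z) (hne : Z.Nonempty)
    (hinv : ∀ g, ∀ y ∈ Z, S.act g y ∈ Z) : ∃ x ∈ Z, ∀ g, IsBm g → S.act g x = x := by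
  obtain ⟨H, hH, hreg⟩ := exists_regular (S.D 0 0).R
  have hpair : Continuous fun y : X => ((dg H 1, y) : Gp n × X) :=
    continuous_const.prodMk continuous_id
  have hcont : Continuous fun y : X => (S.D 0 0).lg (dg H 1) y :=
    Continuous.comp (g := fun p : Gp n × X => (S.D 0 0).lg p.1 p.2)
      (f := fun y : X => ((dg H 1, y) : Gp n × X)) (S.lg_cont 0 0) hpair
  obtain ⟨y, hy, hmin⟩ := hZ.isCompact.exists_isMinOn hne hcont.continuousOn
  have hmin' : ∀ g, (S.D 0 0).lg (dg H 1) y ≤ (S.D 0 0).lg (dg H 1) (S.act g y) := fun g =>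
    isMinOn_iff.1 hmin _ (hinv g y hy)
  refine ⟨y, hy, fun g hg => ?_⟩
  obtain ⟨u, t, hgu, ⟨c, hT⟩, hN⟩ := (S.D 0 0).fix_aux hH hreg hmin' hg
  have hfixT := S.act_eq_of_line 0 0 hT
  have hfixN : S.act u y = y := by
    refine S.act_eq_of_line 0 0 (c := 1) ?_
    rw [one_smul]
    exact hN
  rw [hgu, S.mul, hfixT, hfixN]

/-- The growth at a fixed point. -/
theorem lg_fixed {x : X} (hx : ∀ g, IsBm g → S.act g x = x) (a b : ℕ) {i₀ : (S.D a b).ι}
    (hi₀ : (S.D a b).v x i₀ ≠ 0) (H : aa n) (s : ℝ) :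
    (S.D a b).lg (dg H s) x = s * (S.D a b).R.lam i₀ H := by
  have hline : ∀ g, IsBm g → ∃ z : ℂ, (S.D a b).R.act g ((S.D a b).v x) = z • (S.D a b).v x := by
    intro g hg
    obtain ⟨z, hz⟩ := S.act_v a b g x
    rw [hx g hg] at hz
    exact ⟨z, hz⟩
  have hdg : IsBm (dg H (s : ℂ)) := by
    intro i j hij
    rw [coe_dg]
    exact diagonal_apply_ne _ hij.ne
  obtain ⟨z, hz⟩ := hline _ hdg
  have h1 := congrFun hz i₀
  rw [(S.D a b).R.act_dg, Pi.smul_apply, smul_eq_mul] at h1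
  have h2 : z = Complex.exp (s * (S.D a b).R.lam i₀ H) := (mul_right_cancel₀ hi₀ h1).symm
  have hnv := ns_pos ((S.D a b).ne x)
  unfold PDat.lg
  rw [hz, ns_smul, h2, Complex.norm_exp]
  have h3 : ((s : ℂ) * ((S.D a b).R.lam i₀ H : ℂ)).re = s * (S.D a b).R.lam i₀ H := by
    rw [← Complex.ofReal_mul, Complex.ofReal_re]
  rw [h3, ← Real.exp_nat_mul, Real.log_mul (Real.exp_pos _).ne' hnv.ne', Real.log_exp]
  push_cast
  ring

/-- (6.1), (6.2) without the scaled system. -/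
theorem exists_base' [CompactSpace X] (Z : Set X) (hZ : IsClosed Z) (hne : Z.Nonempty)
    (hinv : ∀ g, ∀ y ∈ Z, S.act g y ∈ Z) : ∃ m : ℕ, 1 ≤ m ∧ ∃ x ∈ Z,
      ∃ lam mu : Fin n → ℤ, Antitone lam ∧ Antitone mu ∧ ∀ a b : ℕ,
        ∃ p ∈ BPoly (S.D (m * a) (m * (b + 1) - 1)).R 1
          (fun i => S.c (m * a) (m * (b + 1) - 1) * (a * lam i + (b + 1) * mu i)),
          MvPolynomial.eval ((S.D (m * a) (m * (b + 1) - 1)).v x) p ≠ 0 := by
  obtain ⟨x, hxZ, hx⟩ := S.exists_fixed Z hZ hne hinv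
  have hi : ∀ a b, ∃ i₀, (S.D a b).v x i₀ ≠ 0 := fun a b => Function.ne_iff.1 ((S.D a b).ne x)
  choose ι₀ hι₀ using hi
  have hline : ∀ a b g, IsBm g → ∃ z : ℂ,
      (S.D a b).R.act g ((S.D a b).v x) = z • (S.D a b).v x := by
    intro a b g hg
    obtain ⟨z, hz⟩ := S.act_v a b g x
    rw [hx g hg] at hz
    exact ⟨z, hz⟩
  -- the weights
  obtain ⟨w, hw⟩ : ∃ w : ℕ → ℕ → Fin n → ℤ, ∀ a b j, w a b j = (S.D a b).R.wt (ι₀ a b) j :=
    ⟨_, fun _ _ _ => rfl⟩
  have hlam : ∀ a b (H : aa n), (S.D a b).R.lam (ι₀ a b) H = ∑ j, (w a b j : ℝ) * H.1 j := by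
    intro a b H
    unfold Rep.lam
    simp only [hw]
  have hlin : ∀ a b (H : aa n), (∑ j, (w a b j : ℝ) * H.1 j) / S.c a b =
      a * ((∑ j, (w 1 0 j : ℝ) * H.1 j) / S.c 1 0 - (∑ j, (w 0 0 j : ℝ) * H.1 j) / S.c 0 0) +
        (b + 1) * ((∑ j, (w 0 0 j : ℝ) * H.1 j) / S.c 0 0) := by
    intro a b H
    obtain ⟨C, hC⟩ := S.cmp a b
    have h1 := eq_zero_of_bdd (A := (∑ j, (w a b j : ℝ) * H.1 j) / S.c a b -
      (a * ((∑ j, (w 1 0 j : ℝ) * H.1 j) / S.c 1 0 - (∑ j, (w 0 0 j : ℝ) * H.1 j) / S.c 0 0) +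
        (b + 1) * ((∑ j, (w 0 0 j : ℝ) * H.1 j) / S.c 0 0))) (C := C) (fun t _ => by
      have h2 := hC (dg H t) x
      rw [S.lg_fixed hx a b (hι₀ a b), S.lg_fixed hx 1 0 (hι₀ 1 0),
        S.lg_fixed hx 0 0 (hι₀ 0 0), hlam, hlam, hlam] at h2
      refine le_trans (le_of_eq ?_) h2
      congr 1
      ring)
    linarith
  have hc : ∀ a b, (0 : ℝ) < S.c a b := fun a b => by exact_mod_cast S.c_pos a b
  obtain ⟨m, hm⟩ : ∃ m : ℕ, m = S.c 1 0 * S.c 0 0 := ⟨_, rfl⟩
  have hm1 : 1 ≤ m := by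
    rw [hm]
    exact Nat.mul_pos (S.c_pos 1 0) (S.c_pos 0 0)
  obtain ⟨lam, hlamdef⟩ : ∃ lam : Fin n → ℤ,
      ∀ j, lam j = -(S.c 0 0 * w 1 0 j - S.c 1 0 * w 0 0 j) := ⟨_, fun _ => rfl⟩
  obtain ⟨mu, hmudef⟩ : ∃ mu : Fin n → ℤ, ∀ j, mu j = -(S.c 1 0 * w 0 0 j) := ⟨_, fun _ => rfl⟩
  -- the weights of the powers
  have hpoly : ∀ a b : ℕ, ∃ p ∈ BPoly (S.D (m * a) (m * (b + 1) - 1)).R 1
      (fun i => S.c (m * a) (m * (b + 1) - 1) * (a * lam i + (b + 1) * mu i)),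
      MvPolynomial.eval ((S.D (m * a) (m * (b + 1) - 1)).v x) p ≠ 0 := by
    intro a b
    obtain ⟨A, hA⟩ : ∃ A, A = m * a := ⟨_, rfl⟩
    obtain ⟨B, hB⟩ : ∃ B, B = m * (b + 1) - 1 := ⟨_, rfl⟩
    rw [← hA, ← hB]
    have hAr : (A : ℝ) = m * a := by
      rw [hA]
      push_cast
      ring
    have hBr : (B : ℝ) + 1 = m * (b + 1) := by
      have h1 : B + 1 = m * (b + 1) := by
        have : 1 ≤ m * (b + 1) := Nat.mul_pos hm1 (Nat.succ_pos b)
        omega
      have h2 : ((B + 1 : ℕ) : ℝ) = ((m * (b + 1) : ℕ) : ℝ) := by rw [h1]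
      push_cast at h2
      linarith
    have hmr : (m : ℝ) = S.c 1 0 * S.c 0 0 := by
      rw [hm]
      push_cast
      ring
    -- the difference is constant
    have hconst : ∀ j k : Fin n, (w A B j : ℝ) + S.c A B * (a * lam j + (b + 1) * mu j) =
        (w A B k : ℝ) + S.c A B * (a * lam k + (b + 1) * mu k) := by
      refine const_of_aa (d := fun j => (w A B j : ℝ) + S.c A B * (a * lam j + (b + 1) * mu j))
        fun H => ?_
      have h1 := hlin A B H
      have h2 := (hc A B).ne'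
      have h3 := (hc 1 0).ne'
      have h4 := (hc 0 0).ne'
      rw [hAr, hBr, hmr] at h1
      have e1 : ∀ j, ((w A B j : ℝ) + S.c A B * (a * lam j + (b + 1) * mu j)) * H.1 j =
          (w A B j : ℝ) * H.1 j - S.c A B * (a * (S.c 0 0 * ((w 1 0 j : ℝ) * H.1 j) -
            S.c 1 0 * ((w 0 0 j : ℝ) * H.1 j)) + (b + 1) * (S.c 1 0 * ((w 0 0 j : ℝ) * H.1 j))) := by
        intro j
        rw [hlamdef, hmudef]
        push_cast
        ring
      simp only [e1, Finset.sum_sub_distrib, Finset.sum_add_distrib, ← Finset.mul_sum]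
      rw [div_eq_iff h2] at h1
      rw [h1]
      field_simp
      ring
    rcases isEmpty_or_nonempty (Fin n) with hE | hE
    · exact exists_linear (S.D A B).R (hline A B) (hι₀ A B) (c := 0)
        (fun j => (hE.false j).elim)
    · obtain ⟨k⟩ := hE
      refine exists_linear (S.D A B).R (hline A B) (hι₀ A B)
        (c := w A B k + S.c A B * (a * lam k + (b + 1) * mu k)) (fun j => ?_)
      have h1 := hconst j k
      have h2 : w A B j + S.c A B * (a * lam j + (b + 1) * mu j) =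
          w A B k + S.c A B * (a * lam k + (b + 1) * mu k) := by
        exact_mod_cast h1
      rw [← hw]
      linarith
  refine ⟨m, hm1, x, hxZ, lam, mu, ?_, ?_, hpoly⟩
  · -- `lam` is decreasing
    intro j k hjk
    have hall : ∀ a : ℕ, (a : ℤ) * lam k + mu k ≤ a * lam j + mu j := by
      intro a
      obtain ⟨p, hp, hp0⟩ := hpoly a 0
      have hne : p ≠ 0 := by
        rintro rfl
        rw [map_zero] at hp0
        exact hp0 rfl
      have h1 := BPoly_antitone _ hp hne hjk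
      have hc' : (0 : ℤ) < S.c (m * a) (m * (0 + 1) - 1) := by
        exact_mod_cast S.c_pos _ _
      have h2 := le_of_mul_le_mul_left h1 hc'
      push_cast at h2
      linarith
    by_contra hlt
    push Not at hlt
    have h1 := hall ((mu j - mu k).toNat + 1)
    have h2 : mu j - mu k ≤ ((mu j - mu k).toNat : ℤ) := Int.self_le_toNat _
    have h3 : (1 : ℤ) ≤ lam k - lam j := by linarith
    have h4 : (((mu j - mu k).toNat + 1 : ℕ) : ℤ) * (lam k - lam j) ≤ mu j - mu k := by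
      linarith
    have h5 : (((mu j - mu k).toNat + 1 : ℕ) : ℤ) ≤
        (((mu j - mu k).toNat + 1 : ℕ) : ℤ) * (lam k - lam j) :=
      le_mul_of_one_le_right (by positivity) h3
    push_cast at h4 h5
    linarith
  · intro j k hjk
    obtain ⟨p, hp, hp0⟩ := hpoly 0 0
    have hne : p ≠ 0 := by
      rintro rfl
      rw [map_zero] at hp0
      exact hp0 rfl
    have h1 := BPoly_antitone _ hp hne hjk
    have hc' : (0 : ℤ) < S.c (m * 0) (m * (0 + 1) - 1) := by
      exact_mod_cast S.c_pos _ _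
    have h2 := le_of_mul_le_mul_left h1 hc'
    push_cast at h2
    linarith

/-- (6.1), (6.2) -/
theorem exists_base [CompactSpace X] (Z : Set X) (hZ : IsClosed Z) (hne : Z.Nonempty)
    (hinv : ∀ g, ∀ y ∈ Z, S.act g y ∈ Z) : ∃ (m : ℕ) (hm : 1 ≤ m), ∃ x ∈ Z,
      ∃ lam mu : Fin n → ℤ, Antitone lam ∧ Antitone mu ∧ ∀ a b,
        ∃ p ∈ BPoly ((S.scale m hm).D a b).R 1
          (fun i => (S.scale m hm).c a b * (a * lam i + (b + 1) * mu i)),
          MvPolynomial.eval (((S.scale m hm).D a b).v x) p ≠ 0 := by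
  obtain ⟨m, hm, x, hx, lam, mu, hl, hmu, h⟩ := S.exists_base' Z hZ hne hinv
  exact ⟨m, hm, x, hx, lam, mu, hl, hmu, fun a b => h a b⟩

end GSys

end Pool.Agent.SG
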