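import Pool.Agent.H.MP_e23cd6_ag.SG.S.Up

/-!
# Generic exponents: semistable points are stable (4.5)

For `y`, `u`, `H ≠ 0` the data `dat S y u H` are the elements of the supports where the maxima in
the slope function are attained. For each of the finitely many possible data `σ` choose a
representative `(y, u, H)`; as some `sT (j + 1) u H` is not zero (`sT_ne`), the set of all `θ` with
`slope S a b θ y u H = 0` is a proper affine hyperplane `E σ`. If `θ` is antitone, `y` is semistable
and not stable, then a slope at some `H ≠ 0` is zero and the slopes are nonnegative, so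
`θ ∈ E (dat S y u H)` (`slope_rep`).
-/

set_option autoImplicit false

open Matrix Topology Filter
open scoped Classical

namespace Pool.Agent.SG.St

section am

variable {α V : Type}

/-- The elements where the maximum is attained. -/
noncomputable def am (w : α → V → ℝ) (T : Finset α) (H : V) : Finset α :=
  T.filter fun a => w a H = mx w T H

theorem mx_dir [AddCommGroup V] [Module ℝ V] (w : α → V → ℝ)
    (hw : ∀ a H H' (t : ℝ), w a (H + t • H') = w a H + t * w a H') {T T' : Finset α}
    (hT : T.Nonempty) {H H' : V} (h : am w T H = am w T' H') :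
    ∀ᶠ t in 𝓝 (0 : ℝ), mx w T (H + t • H') = mx w T H + t * mx w T' H' := by
  have h1 : ∀ᶠ t in 𝓝 (0 : ℝ), ∀ a ∈ T, w a (H + t • H') ≤ mx w T H + t * mx w T' H' := by
    rw [Finset.eventually_all]
    intro a ha
    by_cases haF : a ∈ am w T H
    · refine Eventually.of_forall fun t => le_of_eq ?_
      have e1 := (Finset.mem_filter.1 haF).2
      rw [h] at haF
      have e2 := (Finset.mem_filter.1 haF).2
      rw [hw, e1, e2]
    · have hlt : w a H < mx w T H := by
        refine lt_of_le_of_ne (le_mx w ha H) fun e => haF ?_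
        exact Finset.mem_filter.2 ⟨ha, e⟩
      have hc : ContinuousAt (fun t : ℝ => (mx w T H + t * mx w T' H') - (w a H + t * w a H'))
          0 := by fun_prop
      have h2 : 0 < (fun t : ℝ => (mx w T H + t * mx w T' H') - (w a H + t * w a H')) 0 := by
        simp only [zero_mul, add_zero]
        linarith
      filter_upwards [hc.eventually_const_lt h2] with t ht
      rw [hw]
      linarith
  obtain ⟨a, ha, e⟩ := exists_mx w hT H
  have haF : a ∈ am w T H := Finset.mem_filter.2 ⟨ha, e.symm⟩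
  have haF' : a ∈ am w T' H' := by rwa [← h]
  have e2 := (Finset.mem_filter.1 haF').2
  filter_upwards [h1] with t ht
  apply le_antisymm
  · exact mx_le w hT _ ht
  · rw [e, ← e2, ← hw]
    exact le_mx w ha _

end am

variable {n : ℕ} {X : Type} [TopologicalSpace X]

theorem lam_dir {ι : Type} [Fintype ι] [DecidableEq ι] (R : Rep n ι) (i : ι) (H H' : aa n)
    (t : ℝ) : R.lam i (H + t • H') = R.lam i H + t * R.lam i H' := by
  unfold Rep.lam
  rw [Finset.mul_sum, ← Finset.sum_add_distrib]
  refine Finset.sum_congr rfl fun j _ => ?_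
  change (R.wt i j : ℝ) * (H.1 j + t * H'.1 j) = _
  ring

theorem wT_dir {j : ℕ} (a : Fin j → Fin n) (H H' : aa n) (t : ℝ) :
    wT a (H + t • H') = wT a H + t * wT a H' := by
  unfold wT
  rw [Finset.mul_sum, ← Finset.sum_add_distrib]
  rfl

/-- The data where the maxima are attained. -/
noncomputable def dat (S : GSys n X) (y : X) (u : Gp n) (H : aa n) : Sg S :=
  ⟨am (fun i H => (S.D 1 0).R.lam i H) (supD S 1 0 y u) H,
    am (fun i H => (S.D 0 0).R.lam i H) (supD S 0 0 y u) H,
    fun j => am wT (supT ((j : ℕ) + 1) u) H⟩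

theorem slope_dir (S : GSys n X) (a b : ℝ) (θ : Fin n → ℝ) {y y' : X} {u u' : Gp n} {H H' : aa n}
    (h : dat S y u H = dat S y' u' H') : ∀ᶠ t in 𝓝 (0 : ℝ),
      slope S a b θ y u (H + t • H') = slope S a b θ y u H + t * slope S a b θ y' u' H' := by
  have h1 := congrArg Sg.p h
  have h2 := congrArg Sg.q h
  have h3 : ∀ j : Fin (n - 1), am wT (supT ((j : ℕ) + 1) u) H =
      am wT (supT ((j : ℕ) + 1) u') H' := fun j => congrFun (congrArg Sg.r h) j
  have k1 := mx_dir (fun i H => (S.D 1 0).R.lam i H) (fun i H H' t => lam_dir _ i H H' t)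
    (supD_nonempty S 1 0 y u) h1
  have k2 := mx_dir (fun i H => (S.D 0 0).R.lam i H) (fun i H H' t => lam_dir _ i H H' t)
    (supD_nonempty S 0 0 y u) h2
  have k3 : ∀ᶠ t in 𝓝 (0 : ℝ), ∀ j : Fin (n - 1), mx wT (supT ((j : ℕ) + 1) u) (H + t • H') =
      mx wT (supT ((j : ℕ) + 1) u) H + t * mx wT (supT ((j : ℕ) + 1) u') H' := by
    rw [eventually_all]
    intro j
    exact mx_dir wT (fun a H H' t => wT_dir a H H' t) (supT_nonempty (by omega) u) (h3 j)
  filter_upwards [k1, k2, k3] with t t1 t2 t3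
  unfold slope sD sT
  rw [t1, t2]
  simp only [t3]
  simp only [mul_add, Finset.sum_add_distrib, Finset.mul_sum, add_div]
  have e : ∑ j : Fin (n - 1), kap θ j * (t * mx wT (supT ((j : ℕ) + 1) u') H') =
      ∑ j : Fin (n - 1), t * (kap θ j * mx wT (supT ((j : ℕ) + 1) u') H') :=
    Finset.sum_congr rfl fun j _ => by ring
  rw [e]
  ring

theorem slope_rep (S : GSys n X) (a b : ℝ) (θ : Fin n → ℝ) {y y' : X} {u u' : Gp n} {H H' : aa n}
    (h : dat S y u H = dat S y' u' H') (h0 : ∀ H'', 0 ≤ slope S a b θ y u H'')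
    (h1 : slope S a b θ y u H = 0) : slope S a b θ y' u' H' = 0 := by
  obtain ⟨ε, hε, h2⟩ := Metric.eventually_nhds_iff.1 (slope_dir S a b θ h)
  have h3 := h2 (y := ε / 2) (by rw [dist_zero_right, Real.norm_of_nonneg (by linarith)]; linarith)
  have h4 := h2 (y := -(ε / 2))
    (by rw [dist_zero_right, norm_neg, Real.norm_of_nonneg (by linarith)]; linarith)
  have h5 := h0 (H + (ε / 2) • H')
  have h6 := h0 (H + (-(ε / 2)) • H')
  rw [h3, h1] at h5
  rw [h4, h1] at h6
  have h7 : 0 ≤ slope S a b θ y' u' H' := by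
    by_contra hcon
    rw [not_le] at hcon
    nlinarith
  have h8 : slope S a b θ y' u' H' ≤ 0 := by
    by_contra hcon
    rw [not_le] at hcon
    nlinarith
  exact le_antisymm h8 h7

/-- A minor with a last row which vanishes in the first columns. -/
theorem mnr_snoc {j : ℕ} (u : Gp n) (f : Fin j → Fin n) (x : Fin n)
    (h : ∀ q : ℕ, q < j → colE u x q = 0) :
    mnr (j + 1) u (Fin.snoc f x) = colE u x j * mnr j u f := by
  unfold mnr
  rw [Matrix.det_succ_row _ (Fin.last j), Finset.sum_eq_single (Fin.last j)]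
  · have e1 : (Matrix.of fun p q : Fin (j + 1) => colE u
        ((Fin.snoc f x : Fin (j + 1) → Fin n) p) q) (Fin.last j) (Fin.last j) = colE u x j := by
      rw [Matrix.of_apply, Fin.snoc_last, Fin.val_last]
    have e2 : (Matrix.of fun p q : Fin (j + 1) => colE u
        ((Fin.snoc f x : Fin (j + 1) → Fin n) p) q).submatrix (Fin.last j).succAbove
        (Fin.last j).succAbove = Matrix.of fun p q : Fin j => colE u (f p) q := by
      ext p q
      rw [Matrix.submatrix_apply, Matrix.of_apply, Matrix.of_apply, Fin.succAbove_last,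
        Fin.snoc_castSucc, Fin.val_castSucc]
    rw [e1, e2, Fin.val_last, ← two_mul, pow_mul, neg_one_sq, one_pow, one_mul]
  · intro q _ hq
    have hq' : (q : ℕ) < j := by
      have h1 : (q : ℕ) ≠ j := fun e => hq (Fin.ext (by rw [e, Fin.val_last]))
      omega
    rw [Matrix.of_apply, Fin.snoc_last, h q hq', mul_zero, zero_mul]
  · intro h1
    exact absurd (Finset.mem_univ _) h1

theorem mnr_inj {j : ℕ} {u : Gp n} {f : Fin j → Fin n} (h : mnr j u f ≠ 0) :
    Function.Injective f := by
  intro p q hpq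
  by_contra hne
  apply h
  unfold mnr
  refine Matrix.det_zero_of_row_eq hne ?_
  funext r
  rw [Matrix.of_apply, Matrix.of_apply, hpq]

/-- If the slopes of all the minors are zero then `H = 0`. -/
theorem sT_ne (u : Gp n) {H : aa n} (hH : H ≠ 0) : ∃ j : Fin (n - 1), sT ((j : ℕ) + 1) u H ≠ 0 := by
  by_contra hcon
  push Not at hcon
  -- a coordinate with `H x > 0`
  obtain ⟨x₀, hx₀⟩ : ∃ x, 0 < H.1 x := by
    by_contra h1
    push Not at h1
    apply hH
    ext x
    have h2 := (Finset.sum_eq_zero_iff_of_nonpos (s := Finset.univ) (fun x _ => h1 x)).1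
      (aa_sum H) x (Finset.mem_univ x)
    exact h2
  -- the first column with a nonzero entry in such a row
  have hex : ∃ j : ℕ, ∃ x, 0 < H.1 x ∧ colE u x j ≠ 0 := by
    by_contra h1
    push Not at h1
    have h2 : (u : Matrix (Fin n) (Fin n) ℂ).det = 0 := by
      refine Matrix.det_eq_zero_of_row_eq_zero x₀ fun q => ?_
      have h3 := h1 q x₀ hx₀
      unfold colE at h3
      rw [dif_pos q.2] at h3
      exact h3
    rw [u.2] at h2
    exact one_ne_zero h2
  obtain ⟨x, hx, hxj⟩ := Nat.find_spec hex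
  set j : ℕ := Nat.find hex with hj
  have hjn : j < n := by
    by_contra h1
    apply hxj
    unfold colE
    rw [dif_neg h1]
  have hmin : ∀ q : ℕ, q < j → colE u x q = 0 := by
    intro q hq
    by_contra h1
    exact Nat.find_min hex hq ⟨x, hx, h1⟩
  -- a minor of the first `j` columns with weight zero
  obtain ⟨f, hf, hfH⟩ : ∃ f ∈ supT j u, wT f H = 0 := by
    obtain ⟨f, hf, e⟩ := exists_mx wT (supT_nonempty hjn.le u) H
    refine ⟨f, hf, ?_⟩
    rw [← e]
    rcases Nat.eq_zero_or_pos j with h0 | h0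
    · rw [e]
      unfold wT
      have : IsEmpty (Fin j) := by rw [h0]; infer_instance
      exact Finset.sum_of_isEmpty _
    · have h1 := hcon ⟨j - 1, by omega⟩
      have h2 : j - 1 + 1 = j := by omega
      simp only [h2] at h1
      exact h1
  have hf' : mnr (j + 1) u (Fin.snoc f x) ≠ 0 := by
    rw [mnr_snoc u f x hmin]
    exact mul_ne_zero hxj (Finset.mem_filter.1 hf).2
  have hw : wT (Fin.snoc f x : Fin (j + 1) → Fin n) H = H.1 x := by
    have h1 : wT (Fin.snoc f x : Fin (j + 1) → Fin n) H = wT f H + H.1 x := by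
      unfold wT
      rw [Fin.sum_univ_castSucc]
      simp only [Fin.snoc_castSucc, Fin.snoc_last]
    rw [h1, hfH, zero_add]
  by_cases hjn' : j + 1 = n
  · have hb : Function.Bijective (Fin.snoc f x : Fin (j + 1) → Fin n) := by
      rw [Fintype.bijective_iff_injective_and_card]
      exact ⟨mnr_inj hf', by rw [Fintype.card_fin, Fintype.card_fin, hjn']⟩
    have h1 : wT (Fin.snoc f x : Fin (j + 1) → Fin n) H = 0 := by
      unfold wT
      rw [hb.sum_comp (fun q => H.1 q)]
      exact aa_sum H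
    rw [hw] at h1
    exact absurd h1 hx.ne'
  · have h1 := hcon ⟨j, by omega⟩
    have h2 := le_mx wT (T := supT (j + 1) u) (Finset.mem_filter.2 ⟨Finset.mem_univ _, hf'⟩) H
    rw [hw] at h2
    have h3 : sT (j + 1) u H = 0 := h1
    unfold sT at h3
    linarith

/-- The complement of a hyperplane. -/
theorem hyp_dense {φ : (Fin n → ℝ) → ℝ} {v : Fin n → ℝ} {c : ℝ} (hc : c ≠ 0)
    (h : ∀ θ (s : ℝ), φ (θ + s • v) = φ θ + s * c) : Dense {θ | φ θ ≠ 0} := by
  intro θ
  by_cases h0 : φ θ = 0
  · have h1 : Tendsto (fun s : ℝ => θ + s • v) (𝓝[≠] 0) (𝓝 θ) := by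
      have h2 : Tendsto (fun s : ℝ => θ + s • v) (𝓝 0) (𝓝 (θ + (0 : ℝ) • v)) := by
        apply Continuous.tendsto
        fun_prop
      rw [zero_smul, add_zero] at h2
      exact h2.mono_left nhdsWithin_le_nhds
    refine mem_closure_of_tendsto h1 ?_
    filter_upwards [self_mem_nhdsWithin] with s hs
    change φ (θ + s • v) ≠ 0
    rw [h, h0, zero_add]
    exact mul_ne_zero hs hc
  · exact subset_closure h0

theorem slope_cont_theta (S : GSys n X) (a b : ℝ) (y : X) (u : Gp n) (H : aa n) :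
    Continuous fun θ : Fin n → ℝ => slope S a b θ y u H := by
  unfold slope kap
  fun_prop

theorem slope_hyp (S : GSys n X) (a b : ℝ) (y : X) (u : Gp n) {H : aa n} (hH : H ≠ 0) :
    IsOpen {θ : Fin n → ℝ | slope S a b θ y u H ≠ 0} ∧
      Dense {θ : Fin n → ℝ | slope S a b θ y u H ≠ 0} := by
  refine ⟨isOpen_ne_fun (slope_cont_theta S a b y u H) continuous_const, ?_⟩
  obtain ⟨j, hj⟩ := sT_ne u hH
  set v : Fin n → ℝ := fun i => if (i : ℕ) ≤ j then 1 else 0 with hv
  have hk : ∀ i : Fin (n - 1), kap v i = if i = j then 1 else 0 := by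
    intro i
    unfold kap
    rw [hv]
    simp only
    by_cases h1 : i = j
    · subst h1
      simp
    · have h2 : (i : ℕ) ≠ j := fun e => h1 (Fin.ext e)
      rw [if_neg h1]
      rcases lt_or_gt_of_ne h2 with h3 | h3
      · rw [if_pos (by omega), if_pos (by omega), sub_self]
      · rw [if_neg (by omega), if_neg (by omega), sub_self]
  refine hyp_dense (v := v) hj fun θ s => ?_
  have h1 := slope_lin S 1 s a b 0 0 θ v y u H
  have h2 : slope S 0 0 v y u H = sT ((j : ℕ) + 1) u H := by
    unfold slope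
    simp only [hk]
    simp
  have h3 : slope S a b (θ + s • v) y u H =
      slope S (1 * a + s * 0) (1 * b + s * 0) (fun i => 1 * θ i + s * v i) y u H :=
    slope_congr S (by ring) (by ring) (fun i => by simp) y u H
  rw [h3, h1, h2, one_mul]

end Pool.Agent.SG.St

namespace Pool.Agent.SG

open St

variable {n : ℕ} {X : Type} [TopologicalSpace X]

/-- (4.5) -/
theorem GSys.exists_generic (S : GSys n X) (a b : ℕ) : ∃ G : Set (Fin n → ℝ), IsOpen G ∧ Dense G ∧
    ∀ θ ∈ G, Antitone θ → StrictAnti θ ∧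
      ∀ y, S.Sst a (b + 1) θ y → S.Stb a (b + 1) θ y := by
  -- representatives of the data
  let Re : Type := {σ : Sg S // ∃ (y : X) (u : Gp n) (H : aa n), H ≠ 0 ∧ dat S y u H = σ}
  have hRe : ∀ σ : Re, ∃ (y : X) (u : Gp n) (H : aa n), H ≠ 0 ∧ dat S y u H = σ.1 := fun σ => σ.2
  choose y u H hH hd using hRe
  let G1 : Set (Fin n → ℝ) := ⋂ σ : Re, {θ | slope S a (b + 1) θ (y σ) (u σ) (H σ) ≠ 0}
  let G2 : Set (Fin n → ℝ) := ⋂ p : {p : Fin n × Fin n // p.1 ≠ p.2}, {θ | θ p.1.1 - θ p.1.2 ≠ 0}
  have hG1o : IsOpen G1 := isOpen_iInter_of_finite fun σ => (slope_hyp S _ _ _ _ (hH σ)).1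
  have hG1d : Dense G1 := dense_iInter_of_isOpen (fun σ => (slope_hyp S _ _ _ _ (hH σ)).1)
    fun σ => (slope_hyp S _ _ _ _ (hH σ)).2
  have hp1 : ∀ p : {p : Fin n × Fin n // p.1 ≠ p.2},
      IsOpen {θ : Fin n → ℝ | θ p.1.1 - θ p.1.2 ≠ 0} := fun p =>
    isOpen_ne_fun (by fun_prop) continuous_const
  have hp2 : ∀ p : {p : Fin n × Fin n // p.1 ≠ p.2},
      Dense {θ : Fin n → ℝ | θ p.1.1 - θ p.1.2 ≠ 0} := fun p =>
    hyp_dense (φ := fun θ => θ p.1.1 - θ p.1.2) (v := Pi.single p.1.1 1) (c := 1) one_ne_zero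
      fun θ s => by
        simp only [Pi.add_apply, Pi.smul_apply, smul_eq_mul, Pi.single_eq_same,
          Pi.single_eq_of_ne (Ne.symm p.2)]
        ring
  have hG2o : IsOpen G2 := isOpen_iInter_of_finite hp1
  have hG2d : Dense G2 := dense_iInter_of_isOpen hp1 hp2
  refine ⟨G1 ∩ G2, hG1o.inter hG2o, hG1d.inter_of_isOpen_left hG2d hG1o, ?_⟩
  rintro θ ⟨h1, h2⟩ hθ
  have hθs : StrictAnti θ := by
    refine hθ.strictAnti_of_injective fun i j hij => ?_
    by_contra hne
    exact Set.mem_iInter.1 h2 ⟨(i, j), hne⟩ (sub_eq_zero.2 hij)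
  refine ⟨hθs, fun y' hy' => S.stb_of_slope a b hθ fun u' _ H' hH' => ?_⟩
  have h3 := slope_nonneg_of_sst S hy' u'
  refine lt_of_le_of_ne (h3 H') fun h4 => ?_
  let σ : Re := ⟨dat S y' u' H', y', u', H', hH', rfl⟩
  exact Set.mem_iInter.1 h1 σ (slope_rep S a (b + 1) θ (hd σ).symm h3 h4.symm)

end Pool.Agent.SG
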