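import Pool.Agent.H.MP_e23cd6_ag.SG.S.Up

/-!
# The stable locus and its quotient by the upper triangular matrices (4.3), minimisers, (3.1)
-/

set_option autoImplicit false

open Matrix Topology

namespace Pool.Agent.SG

open St

variable {n : ℕ} {X : Type} [TopologicalSpace X]

/-- A proper continuous function on the group which is invariant under `SU(n)` on the left takes
its minimum at an upper triangular matrix. -/
theorem exists_minB {f : Gp n → ℝ} (hf : Continuous f) (hk : ∀ k ∈ SU n, ∀ g, f (k * g) = f g)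
    (hp : ∀ M : ℝ, ∃ R : ℝ, ∀ g, f g ≤ M → sz g ≤ R) : ∃ b, IsB b ∧ ∀ g, f b ≤ f g := by
  obtain ⟨R, hR⟩ := hp (f 1)
  have hne : ({g : Gp n | sz g ≤ R}).Nonempty := ⟨1, hR 1 le_rfl⟩
  obtain ⟨g₀, hg₀, hmin⟩ := (sz_compact R).exists_isMinOn hne hf.continuousOn
  obtain ⟨k, hk', b, hb, e⟩ := iwasawa g₀
  refine ⟨b, hb, fun g => ?_⟩
  have h1 : f b = f g₀ := by rw [e, hk k hk']
  rw [h1]
  by_cases hg : sz g ≤ R
  · exact hmin hg
  · have h2 : f g₀ ≤ f 1 := hmin (hR 1 le_rfl)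
    have h3 : ¬ f g ≤ f 1 := fun h => hg (hR g h)
    linarith [not_le.1 h3]

theorem GSys.lev_cont_g (S : GSys n X) (a b : ℝ) (θ : Fin n → ℝ) (y : X) :
    Continuous fun g => S.lev a b θ y g := by
  have h1 := S.lev_cont a b θ
  have h2 : Continuous fun g : Gp n => ((g, y) : Gp n × X) := continuous_id.prodMk continuous_const
  have h3 := h1.comp h2
  exact h3

theorem GSys.isOpen_stb (S : GSys n X) (a b : ℕ) {θ : Fin n → ℝ} (hθ : StrictAnti θ) :
    IsOpen {y | S.Stb a (b + 1) θ y} := by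
  rw [isOpen_iff_mem_nhds]
  intro y hy
  obtain ⟨O, hO, δ, η, C, hδ, hη, h⟩ := S.growth a b hθ hy
  refine Filter.mem_of_superset hO fun z hz => ?_
  exact S.stb_of_growth hδ (h z hz θ fun i => by
    rw [sub_self, abs_zero]
    exact hη.le)

theorem GSys.stb_act (S : GSys n X) {a b : ℝ} {θ : Fin n → ℝ} {b' : Gp n} (hb : IsB b') {y : X}
    (h : S.Stb a b θ y) : S.Stb a b θ (S.act b' y) := by
  intro M
  obtain ⟨R, hR⟩ := h (M + S.lev a b θ y b')
  refine ⟨R + sz b'⁻¹, fun g hg => ?_⟩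
  have h1 := S.lev_mul a b θ y g hb
  have h2 := hR (g * b') (by linarith)
  have h3 := sz_mul (g * b') b'⁻¹
  rw [mul_assoc, mul_inv_cancel, mul_one] at h3
  linarith

/-- Uniform growth on compact subsets of the stable locus. -/
theorem GSys.growth_compact (S : GSys n X) (a b : ℕ) {θ : Fin n → ℝ} (hθ : StrictAnti θ)
    {C : Set X} (hC : IsCompact C) (h : ∀ y ∈ C, S.Stb a (b + 1) θ y) :
    ∃ δ > 0, ∃ C₀ : ℝ, ∀ y ∈ C, ∀ g, δ * sz g - C₀ ≤ S.lev a (b + 1) θ y g := by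
  refine hC.induction_on (p := fun s => ∃ δ > 0, ∃ C₀ : ℝ, ∀ y ∈ s, ∀ g,
    δ * sz g - C₀ ≤ S.lev a (b + 1) θ y g) ?_ ?_ ?_ ?_
  · exact ⟨1, one_pos, 0, fun y hy => absurd hy (Set.notMem_empty y)⟩
  · rintro s t hst ⟨δ, hδ, C₀, h⟩
    exact ⟨δ, hδ, C₀, fun y hy => h y (hst hy)⟩
  · rintro s t ⟨δ, hδ, C₀, h⟩ ⟨δ', hδ', C₀', h'⟩
    refine ⟨min δ δ', lt_min hδ hδ', max C₀ C₀', fun y hy g => ?_⟩
    have hs := sz_nonneg g
    rcases hy with hy | hy
    · have h1 := h y hy g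
      have h2 := mul_le_mul_of_nonneg_right (min_le_left δ δ') hs
      have h3 := le_max_left C₀ C₀'
      linarith
    · have h1 := h' y hy g
      have h2 := mul_le_mul_of_nonneg_right (min_le_right δ δ') hs
      have h3 := le_max_right C₀ C₀'
      linarith
  · intro y hy
    obtain ⟨O, hO, δ, η, C₀, hδ, hη, h1⟩ := S.growth a b hθ (h y hy)
    refine ⟨O, mem_nhdsWithin_of_mem_nhds hO, δ, hδ, C₀, fun z hz g => ?_⟩
    exact h1 z hz θ (fun i => by
      rw [sub_self, abs_zero]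
      exact hη.le) g

/-- (4.3) -/
theorem GSys.good [CompactSpace X] (S : GSys n X) (a b : ℕ) {θ : Fin n → ℝ} (hθ : StrictAnti θ)
    (hgen : ∀ y, S.Sst a (b + 1) θ y → S.Stb a (b + 1) θ y) :
    IsOpen {y | S.Stb a (b + 1) θ y} ∧
    (∀ b', IsB b' → ∀ y, S.Stb a (b + 1) θ y → S.Stb a (b + 1) θ (S.act b' y)) ∧
    (∃ C, IsCompact C ∧ (∀ y ∈ C, S.Stb a (b + 1) θ y) ∧
      ∀ y, S.Stb a (b + 1) θ y → ∃ b', IsB b' ∧ S.act b' y ∈ C) ∧
    ∀ C, IsCompact C → (∀ y ∈ C, S.Stb a (b + 1) θ y) → ∃ r : ℝ, ∀ b', IsB b' → ∀ y ∈ C,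
      S.act b' y ∈ C → ∀ i j, ‖(b' : Matrix (Fin n) (Fin n) ℂ) i j‖ ≤ r := by
  refine ⟨S.isOpen_stb a b hθ, fun b' hb y hy => S.stb_act hb hy, ?_, ?_⟩
  · refine ⟨{y | ∀ g, 0 ≤ S.lev a (b + 1) θ y g}, (S.isClosed_lev a (b + 1) θ 0).isCompact,
      fun y hy => hgen y ⟨0, hy⟩, fun y hy => ?_⟩
    obtain ⟨b', hb', hmin⟩ := exists_minB (S.lev_cont_g a (b + 1) θ y)
      (fun k hk g => S.lev_SU a (b + 1) θ y g hk) hy
    refine ⟨b', hb', fun g => ?_⟩
    have h1 := S.lev_mul a (b + 1) θ y g hb'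
    have h2 := hmin (g * b')
    linarith
  · intro C hC hst
    obtain ⟨δ, hδ, C₀, h⟩ := S.growth_compact a b hθ hC hst
    refine ⟨Real.exp (2 * C₀ / δ / 2), fun b' hb' y hy hy' i j => ?_⟩
    have h1 := h y hy b'
    have h2 := h _ hy' b'⁻¹
    have h3 := S.lev_mul a (b + 1) θ y b'⁻¹ hb'
    rw [inv_mul_cancel, S.lev_one] at h3
    have h4 := mul_nonneg hδ.le (sz_nonneg b'⁻¹)
    refine (norm_le_sz b' i j).trans (Real.exp_le_exp.2 ?_)
    have h5 : sz b' ≤ 2 * C₀ / δ := by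
      rw [le_div_iff₀ hδ]
      linarith
    linarith

/-- `Jf` and the level function differ by a bounded function. -/
theorem GSys.jf_bound (S : GSys n X) (a b : ℕ) (χ : Fin n → ℤ) (y : X) : ∃ C : ℝ, ∀ g,
    |Jf (S.D a b).R (fun i => (χ i : ℝ)) ((S.D a b).v y) g -
      S.c a b * S.lev a (b + 1) (fun i => (χ i : ℝ) / S.c a b) y g| ≤ C := by
  obtain ⟨C, hC⟩ := S.cmp a b
  have hc : (0 : ℝ) < S.c a b := by exact_mod_cast S.c_pos a b
  refine ⟨S.c a b * C + |Real.log (ns ((S.D a b).v y)) / 2|, fun g => ?_⟩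
  have h1 : S.c a b * ∑ i, (χ i : ℝ) / S.c a b * hw g i = ∑ i, (χ i : ℝ) * hw g i := by
    rw [Finset.mul_sum]
    refine Finset.sum_congr rfl fun i _ => ?_
    field_simp
  have e : Jf (S.D a b).R (fun i => (χ i : ℝ)) ((S.D a b).v y) g -
      S.c a b * S.lev a (b + 1) (fun i => (χ i : ℝ) / S.c a b) y g =
      S.c a b * ((S.D a b).lg g y / S.c a b -
        (a * ((S.D 1 0).lg g y / S.c 1 0 - (S.D 0 0).lg g y / S.c 0 0) +
          (b + 1) * ((S.D 0 0).lg g y / S.c 0 0))) + Real.log (ns ((S.D a b).v y)) / 2 := by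
    have e1 : Jf (S.D a b).R (fun i => (χ i : ℝ)) ((S.D a b).v y) g =
        (S.D a b).lg g y + Real.log (ns ((S.D a b).v y)) / 2 + ∑ i, (χ i : ℝ) * hw g i := by
      unfold Jf PDat.lg
      ring
    have e2 : S.lev a (b + 1) (fun i => (χ i : ℝ) / S.c a b) y g =
        a * ((S.D 1 0).lg g y / S.c 1 0 - (S.D 0 0).lg g y / S.c 0 0) +
          (b + 1) * ((S.D 0 0).lg g y / S.c 0 0) + ∑ i, (χ i : ℝ) / S.c a b * hw g i := rfl
    have h2 : (S.c a b : ℝ) * ((S.D a b).lg g y / S.c a b) = (S.D a b).lg g y := by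
      field_simp
    rw [e1, e2]
    linear_combination (-1 : ℝ) * h1 - h2
  rw [e]
  refine (abs_add_le _ _).trans (add_le_add ?_ le_rfl)
  rw [abs_mul, abs_of_pos hc]
  exact mul_le_mul_of_nonneg_left (hC g y) hc.le

/-- Semistable points of an integral level are semistable in the sense of `Jf`. -/
theorem GSys.sst_iff (S : GSys n X) (a b : ℕ) (χ : Fin n → ℤ) (y : X) :
    S.Sst a (b + 1) (fun i => (χ i : ℝ) / S.c a b) y ↔
      ∃ C : ℝ, ∀ g, C ≤ Jf (S.D a b).R (fun i => (χ i : ℝ)) ((S.D a b).v y) g := by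
  have hc : (0 : ℝ) < S.c a b := by exact_mod_cast S.c_pos a b
  obtain ⟨K, hK⟩ := S.jf_bound a b χ y
  constructor
  · rintro ⟨C, hC⟩
    refine ⟨S.c a b * C - K, fun g => ?_⟩
    have h1 := (abs_le.1 (hK g)).1
    have h2 := mul_le_mul_of_nonneg_left (hC g) hc.le
    linarith
  · rintro ⟨C, hC⟩
    refine ⟨(C - K) / S.c a b, fun g => ?_⟩
    have h1 := (abs_le.1 (hK g)).2
    have h2 := hC g
    rw [div_le_iff₀ hc]
    linarith

theorem GSys.exists_min (S : GSys n X) (a b : ℕ) {χ : Fin n → ℤ} (_hχ : Antitone χ) {y : X}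
    (h : S.Stb a (b + 1) (fun i => (χ i : ℝ) / S.c a b) y) : ∃ b', IsB b' ∧
      ∀ g, Jf (S.D a b).R (fun i => (χ i : ℝ)) ((S.D a b).v (S.act b' y)) 1 ≤
        Jf (S.D a b).R (fun i => (χ i : ℝ)) ((S.D a b).v (S.act b' y)) g := by
  have hc : (0 : ℝ) < S.c a b := by exact_mod_cast S.c_pos a b
  obtain ⟨K, hK⟩ := S.jf_bound a b χ y
  have e1 : ∀ g, Jf (S.D a b).R (fun i => (χ i : ℝ)) ((S.D a b).v y) g =
      (S.D a b).lg g y + Real.log (ns ((S.D a b).v y)) / 2 + ∑ i, (χ i : ℝ) * hw g i := by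
    intro g
    unfold Jf PDat.lg
    ring
  have hcont : Continuous fun g => Jf (S.D a b).R (fun i => (χ i : ℝ)) ((S.D a b).v y) g := by
    simp only [e1]
    have h1 := S.lg_cont a b
    have h2 : Continuous fun g : Gp n => ((g, y) : Gp n × X) :=
      continuous_id.prodMk continuous_const
    have h3 := h1.comp h2
    have h4 : Continuous fun g : Gp n => (S.D a b).lg g y := h3
    exact (h4.add continuous_const).add
      (continuous_finsetSum _ fun i _ => continuous_const.mul (hw_cont i))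
  obtain ⟨b', hb', hmin⟩ := exists_minB hcont (fun k hk g => by
      unfold Jf
      rw [(S.D a b).R.act_mul, (S.D a b).R.ns_act_SU hk, hw_SU hk])
    (fun M => by
      obtain ⟨R, hR⟩ := h ((M + K) / S.c a b)
      refine ⟨R, fun g hg => hR g ?_⟩
      have h1 := (abs_le.1 (hK g)).1
      rw [le_div_iff₀ hc]
      linarith)
  refine ⟨b', hb', fun g => ?_⟩
  obtain ⟨z, hz, e⟩ := (S.D a b).eqv b' y
  have hz' : Real.log (‖z‖ ^ 2) = 2 * Real.log ‖z‖ := by
    rw [Real.log_pow]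
    norm_num
  have key : ∀ g, Jf (S.D a b).R (fun i => (χ i : ℝ)) ((S.D a b).v (S.act b' y)) g =
      Jf (S.D a b).R (fun i => (χ i : ℝ)) ((S.D a b).v y) (g * b') - Real.log ‖z‖ -
        ∑ i, (χ i : ℝ) * hw b' i := by
    intro g
    unfold Jf
    rw [(S.D a b).R.act_mul, e, (S.D a b).R.act_smul, ns_smul,
      Real.log_mul (pow_ne_zero 2 (norm_ne_zero_iff.2 hz))
        (ns_pos (act_ne (S.D a b).R g ((S.D a b).ne _))).ne', hz']
    simp only [hw_mul_B hb', mul_add, Finset.sum_add_distrib]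
    ring
  rw [key, key, one_mul]
  have := hmin (g * b')
  linarith

/-- (3.1) -/
theorem GSys.le_lev (S : GSys n X) (a b : ℕ) {N : ℕ} (_hN : 1 ≤ N) {χ : Fin n → ℤ}
    {p : MvPolynomial (S.D a b).ι ℂ} (hp : p ∈ BPoly (S.D a b).R N χ) {y : X}
    (hy : MvPolynomial.eval ((S.D a b).v y) p ≠ 0) : ∃ C : ℝ, ∀ g,
      C ≤ S.lev (N * S.c a b * a) (N * S.c a b * (b + 1)) (fun i => (χ i : ℝ)) y g := by
  obtain ⟨C, hC, h1⟩ := BPoly_le (S.D a b).R hp
  obtain ⟨C1, hC1⟩ := S.cmp a b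
  have hc : (0 : ℝ) < S.c a b := by exact_mod_cast S.c_pos a b
  refine ⟨Real.log ‖MvPolynomial.eval ((S.D a b).v y) p‖ - Real.log C -
    N * (Real.log (ns ((S.D a b).v y)) / 2) - N * S.c a b * C1, fun g => ?_⟩
  have h2 := Real.log_le_log (norm_pos_iff.2 hy) (h1 ((S.D a b).v y) g)
  have hns := ns_pos (act_ne (S.D a b).R g ((S.D a b).ne y))
  have hnm : 0 < nm ((S.D a b).R.act g ((S.D a b).v y)) := Real.sqrt_pos.2 hns
  rw [Real.log_mul (mul_pos hC (pow_pos hnm N)).ne' (Real.exp_pos _).ne', Real.log_exp,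
    Real.log_mul hC.ne' (pow_pos hnm N).ne', Real.log_pow] at h2
  have h3 : Real.log (nm ((S.D a b).R.act g ((S.D a b).v y))) =
      (S.D a b).lg g y + Real.log (ns ((S.D a b).v y)) / 2 := by
    unfold nm PDat.lg
    rw [Real.log_sqrt hns.le]
    ring
  have h4 : (S.D a b).lg g y ≤ S.c a b * (a * S.fL g y + (b + 1) * S.fP g y) +
      S.c a b * C1 := by
    have h5 := (abs_le.1 (hC1 g y)).2
    have h6 : (S.D a b).lg g y / S.c a b ≤ (a * S.fL g y + (b + 1) * S.fP g y) + C1 := by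
      unfold GSys.fL GSys.fP
      linarith
    rw [div_le_iff₀ hc] at h6
    linarith
  have h7 : S.lev (N * S.c a b * a) (N * S.c a b * (b + 1)) (fun i => (χ i : ℝ)) y g =
      N * (S.c a b * (a * S.fL g y + (b + 1) * S.fP g y)) + ∑ i, (χ i : ℝ) * hw g i := by
    unfold GSys.lev
    ring
  rw [h7]
  rw [h3] at h2
  have hN0 : (0 : ℝ) ≤ N := Nat.cast_nonneg N
  have h8 := mul_le_mul_of_nonneg_left h4 hN0
  linarith

end Pool.Agent.SG
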