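import Pool.Agent.H.MP_e23cd6_ag.SG.S.Crit2

/-!
# Finiteness of the set of slope functions, and its consequences (4.6), (5.2)
-/

set_option autoImplicit false

open Matrix Topology
open scoped Classical

namespace Pool.Agent.SG.St

variable {n : ℕ} {X : Type} [TopologicalSpace X]

/-- The data on which the slope function depends. -/
structure Sg (S : GSys n X) : Type where
  p : Finset (S.D 1 0).ι
  q : Finset (S.D 0 0).ι
  r : ∀ j : Fin (n - 1), Finset (Fin ((j : ℕ) + 1) → Fin n)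

instance finite_Sg (S : GSys n X) : Finite (Sg S) := by
  refine Finite.of_injective (β := Finset (S.D 1 0).ι × Finset (S.D 0 0).ι ×
    (∀ j : Fin (n - 1), Finset (Fin ((j : ℕ) + 1) → Fin n))) (fun σ => (σ.p, σ.q, σ.r)) ?_
  rintro ⟨p, q, r⟩ ⟨p', q', r'⟩ h
  simp only [Prod.mk.injEq] at h
  obtain ⟨h1, h2, h3⟩ := h
  subst h1 h2 h3
  rfl

/-- The slope function of given data. -/
noncomputable def slf (S : GSys n X) (a b : ℝ) (θ : Fin n → ℝ) (σ : Sg S) (H : aa n) : ℝ :=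
  a * (mx (fun i H => (S.D 1 0).R.lam i H) σ.p H / S.c 1 0 -
    mx (fun i H => (S.D 0 0).R.lam i H) σ.q H / S.c 0 0) +
    b * (mx (fun i H => (S.D 0 0).R.lam i H) σ.q H / S.c 0 0) +
    ∑ j : Fin (n - 1), kap θ j * mx wT (σ.r j) H

/-- The data of `(y, u)`. -/
noncomputable def sg (S : GSys n X) (y : X) (u : Gp n) : Sg S :=
  ⟨supD S 1 0 y u, supD S 0 0 y u, fun j => supT ((j : ℕ) + 1) u⟩

theorem slope_eq (S : GSys n X) (a b : ℝ) (θ : Fin n → ℝ) (y : X) (u : Gp n) (H : aa n) :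
    slope S a b θ y u H = slf S a b θ (sg S y u) H := rfl

theorem slf_smul (S : GSys n X) (a b : ℝ) (θ : Fin n → ℝ) (σ : Sg S) (t : ℝ) (H : aa n)
    (ht : 0 ≤ t) : slf S a b θ σ (t • H) = t * slf S a b θ σ H := by
  unfold slf
  rw [mx_smul _ (fun i t H => lam_smul _ i t H) _ ht, mx_smul _ (fun i t H => lam_smul _ i t H) _ ht]
  simp only [mx_smul _ (fun a t H => wT_smul a t H) _ ht]
  rw [mul_add, mul_add, Finset.mul_sum]
  congr 1
  · ring
  · exact Finset.sum_congr rfl fun j _ => by ring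

theorem slf_gap (S : GSys n X) (a b : ℝ) (θ : Fin n → ℝ) : ∃ d > 0, ∀ σ : Sg S,
    (∃ H, slf S a b θ σ H < 0) → ∃ H, ‖H‖ ≤ 1 ∧ slf S a b θ σ H ≤ -d := by
  have h1 : ∀ (σ : Sg S) (t : ℝ) (H : aa n), 0 ≤ t →
      slf S a b θ σ (t • H) = t * slf S a b θ σ H := fun σ t H ht => slf_smul S a b θ σ t H ht
  exact fin_gap (slf S a b θ) h1

theorem slope_lin (S : GSys n X) (p q a b a' b' : ℝ) (θ θ' : Fin n → ℝ) (y : X) (u : Gp n)
    (H : aa n) : slope S (p * a + q * a') (p * b + q * b') (fun i => p * θ i + q * θ' i) y u H =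
      p * slope S a b θ y u H + q * slope S a' b' θ' y u H := by
  unfold slope kap
  have h : ∑ j : Fin (n - 1), (p * θ ⟨j, by omega⟩ + q * θ' ⟨j, by omega⟩ -
      (p * θ ⟨j + 1, by omega⟩ + q * θ' ⟨j + 1, by omega⟩)) * sT ((j : ℕ) + 1) u H =
      p * ∑ j : Fin (n - 1), (θ ⟨j, by omega⟩ - θ ⟨j + 1, by omega⟩) * sT ((j : ℕ) + 1) u H +
      q * ∑ j : Fin (n - 1), (θ' ⟨j, by omega⟩ - θ' ⟨j + 1, by omega⟩) * sT ((j : ℕ) + 1) u H := by
    rw [Finset.mul_sum, Finset.mul_sum, ← Finset.sum_add_distrib]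
    exact Finset.sum_congr rfl fun j _ => by ring
  rw [h]
  ring

theorem slope_congr (S : GSys n X) {a b a' b' : ℝ} {θ θ' : Fin n → ℝ} (ha : a = a') (hb : b = b')
    (hθ : ∀ i, θ i = θ' i) (y : X) (u : Gp n) (H : aa n) :
    slope S a b θ y u H = slope S a' b' θ' y u H := by
  have h : θ = θ' := funext hθ
  rw [ha, hb, h]

/-- A uniform bound for the part of `P` and of the exponents. -/
theorem slope_bound (S : GSys n X) (b : ℝ) {θ : Fin n → ℝ} {M : ℝ} (hM : ∀ i, |θ i| ≤ M) (y : X)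
    (u : Gp n) (H : aa n) :
    |slope S 0 b θ y u H| ≤ (|b| * (S.D 0 0).R.Wt + 2 * M * (n * n)) * ‖H‖ := by
  have hW := (S.D 0 0).R.Wt_nonneg
  have hH := norm_nonneg H
  have h1 : |sD S 0 0 y u H| ≤ (S.D 0 0).R.Wt * ‖H‖ := by
    have hc : (1 : ℝ) ≤ S.c 0 0 := by exact_mod_cast S.c_pos 0 0
    unfold sD
    rw [abs_div, abs_of_pos (lt_of_lt_of_le one_pos hc)]
    refine (div_le_self (abs_nonneg _) hc).trans ?_
    exact abs_mx_le _ _ H (mul_nonneg hW hH) fun i => lam_abs_le _ i H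
  have h2 : ∀ j : Fin (n - 1), |sT ((j : ℕ) + 1) u H| ≤ n * ‖H‖ := by
    intro j
    refine abs_mx_le _ _ H (by positivity) fun a => (wT_abs_le a H).trans ?_
    refine mul_le_mul_of_nonneg_right ?_ hH
    have : (j : ℕ) + 1 ≤ n := by omega
    exact_mod_cast this
  have h3 : ∀ j : Fin (n - 1), |kap θ j| ≤ 2 * M := by
    intro j
    unfold kap
    have := abs_sub (θ ⟨j, by omega⟩) (θ ⟨j + 1, by omega⟩)
    have := hM ⟨j, by omega⟩
    have := hM ⟨j + 1, by omega⟩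
    linarith
  have h4 : |∑ j : Fin (n - 1), kap θ j * sT ((j : ℕ) + 1) u H| ≤ 2 * M * (n * n) * ‖H‖ := by
    refine (Finset.abs_sum_le_sum_abs _ _).trans ?_
    by_cases hn : n = 0
    · subst hn
      simp
    · have hM0 : 0 ≤ M := (abs_nonneg _).trans (hM ⟨0, Nat.pos_of_ne_zero hn⟩)
      calc ∑ j : Fin (n - 1), |kap θ j * sT ((j : ℕ) + 1) u H|
          ≤ ∑ _j : Fin (n - 1), 2 * M * (n * ‖H‖) := by
            refine Finset.sum_le_sum fun j _ => ?_
            rw [abs_mul]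
            exact mul_le_mul (h3 j) (h2 j) (abs_nonneg _) (by positivity)
        _ = ((n - 1 : ℕ) : ℝ) * (2 * M * (n * ‖H‖)) := by
            rw [Finset.sum_const, Finset.card_univ, Fintype.card_fin, nsmul_eq_mul]
        _ ≤ (n : ℝ) * (2 * M * (n * ‖H‖)) := by
            refine mul_le_mul_of_nonneg_right ?_ (by positivity)
            exact_mod_cast Nat.sub_le n 1
        _ = _ := by ring
  have e : slope S 0 b θ y u H = b * sD S 0 0 y u H +
      ∑ j : Fin (n - 1), kap θ j * sT ((j : ℕ) + 1) u H := by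
    unfold slope
    ring
  rw [e]
  refine (abs_add_le _ _).trans ?_
  rw [abs_mul]
  have h5 := mul_le_mul_of_nonneg_left h1 (abs_nonneg b)
  calc _ ≤ |b| * ((S.D 0 0).R.Wt * ‖H‖) + 2 * M * (n * n) * ‖H‖ := add_le_add h5 h4
    _ = _ := by ring

theorem slope_nonneg_of_stb (S : GSys n X) {a b : ℝ} {θ : Fin n → ℝ} {y : X}
    (h : S.Stb a b θ y) {u : Gp n} (hu : u ∈ SU n) (H : aa n) : 0 ≤ slope S a b θ y u H := by
  by_cases hH : H = 0
  · rw [hH, slope_zero]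
  · exact (slope_pos_of_stb S h hu hH).le

end Pool.Agent.SG.St

namespace Pool.Agent.SG

open St

variable {n : ℕ} {X : Type} [TopologicalSpace X]

theorem GSys.isClosed_lev (S : GSys n X) (a b : ℝ) (θ : Fin n → ℝ) (c : ℝ) :
    IsClosed {y | ∀ g, c ≤ S.lev a b θ y g} := by
  have e : {y | ∀ g, c ≤ S.lev a b θ y g} = ⋂ g, {y | c ≤ S.lev a b θ y g} := by
    ext y
    rw [Set.mem_iInter]
    rfl
  rw [e]
  refine isClosed_iInter fun g => isClosed_le continuous_const ?_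
  have h1 := S.lev_cont a b θ
  have h2 : Continuous fun y : X => ((g, y) : Gp n × X) := continuous_const.prodMk continuous_id
  have h3 := h1.comp h2
  exact h3

/-- (5.2) -/
theorem GSys.exists_k0 (S : GSys n X) {lam mu : Fin n → ℤ} (hl : Antitone lam)
    (_hm : Antitone mu) :
    ∃ k₀ : ℕ, 1 ≤ k₀ ∧ ∀ τ : Fin n → ℝ, (∀ i, |τ i| ≤ 1) →
      StrictAnti (fun i => (k₀ * lam i + mu i + τ i : ℝ)) → ∀ y,
        S.Stb k₀ 1 (fun i => k₀ * lam i + mu i + τ i) y → ∀ a b : ℕ, k₀ * (b + 1) ≤ a →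
          S.Stb a (b + 1) (fun i => a * lam i + (b + 1) * (mu i + τ i)) y := by
  obtain ⟨d, hd, hgap⟩ := slf_gap S 1 0 (fun i => (lam i : ℝ))
  set M : ℝ := ∑ i, |(mu i : ℝ)| + 1 with hMdef
  set CA : ℝ := |(1 : ℝ)| * (S.D 0 0).R.Wt + 2 * M * (n * n) with hCA
  obtain ⟨k, hk⟩ := exists_nat_gt (CA / d)
  refine ⟨max k 1, le_max_right _ _, fun τ hτ hθ y hy a b hab => ?_⟩
  set k₀ : ℕ := max k 1 with hk₀
  have hk0 : CA < k₀ * d := by
    have h1 : CA / d < k₀ := lt_of_lt_of_le hk (by exact_mod_cast le_max_left k 1)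
    rwa [div_lt_iff₀ hd] at h1
  have hM : ∀ i, |(mu i : ℝ) + τ i| ≤ M := by
    intro i
    have h1 := abs_add_le (mu i : ℝ) (τ i)
    have h2 := hτ i
    have h3 : |(mu i : ℝ)| ≤ ∑ i, |(mu i : ℝ)| :=
      Finset.single_le_sum (f := fun i => |(mu i : ℝ)|) (fun _ _ => abs_nonneg _)
        (Finset.mem_univ i)
    linarith
  -- the slope of the direction `(1, 0, lam)` is nonnegative
  have h0 : ∀ u ∈ SU n, ∀ H, 0 ≤ slope S 1 0 (fun i => (lam i : ℝ)) y u H := by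
    intro u hu H
    by_contra hcon
    rw [not_le] at hcon
    obtain ⟨H', hH', h1⟩ := hgap (sg S y u) ⟨H, hcon⟩
    rw [← slope_eq] at h1
    have h2 := slope_nonneg_of_stb S hy hu H'
    have h3 := slope_lin S k₀ 1 1 0 0 1 (fun i => (lam i : ℝ)) (fun i => (mu i : ℝ) + τ i) y u H'
    have e : slope S k₀ 1 (fun i => k₀ * lam i + mu i + τ i) y u H' =
        slope S (k₀ * 1 + 1 * 0) (k₀ * 0 + 1 * 1)
          (fun i => (k₀ : ℝ) * (lam i : ℝ) + 1 * ((mu i : ℝ) + τ i)) y u H' :=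
      slope_congr S (by ring) (by ring) (fun i => by ring) y u H'
    rw [e, h3] at h2
    have h4 := slope_bound S 1 hM y u H'
    have h5 := (abs_le.1 h4).2
    have hCA0 : 0 ≤ CA := by
      have hM0 : 0 ≤ M := by
        rw [hMdef]
        have : 0 ≤ ∑ i, |(mu i : ℝ)| := Finset.sum_nonneg fun _ _ => abs_nonneg _
        linarith
      have hW := (S.D 0 0).R.Wt_nonneg
      positivity
    have h6 : CA * ‖H'‖ ≤ CA := mul_le_of_le_one_right hCA0 hH'
    have h7 : (k₀ : ℝ) * slope S 1 0 (fun i => (lam i : ℝ)) y u H' ≤ k₀ * (-d) :=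
      mul_le_mul_of_nonneg_left h1 (Nat.cast_nonneg _)
    linarith
  have hq : (0 : ℝ) ≤ a - k₀ * (b + 1) := by
    have : ((k₀ * (b + 1) : ℕ) : ℝ) ≤ a := by exact_mod_cast hab
    push_cast at this
    linarith
  have hb1 : (0 : ℝ) < b + 1 := by positivity
  have hanti : Antitone (fun i => (a * lam i + (b + 1) * (mu i + τ i) : ℝ)) := by
    intro i j hij
    have h1 : ((lam j : ℤ) : ℝ) ≤ lam i := by exact_mod_cast hl hij
    have h2 := hθ.antitone hij
    have h3 := mul_le_mul_of_nonneg_left h1 hq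
    have h4 := mul_le_mul_of_nonneg_left h2 hb1.le
    simp only at h4 ⊢
    nlinarith
  refine S.stb_of_slope a b hanti fun u hu H hH => ?_
  have h3 := slope_lin S (b + 1) (a - k₀ * (b + 1)) k₀ 1 1 0
    (fun i => k₀ * lam i + mu i + τ i) (fun i => (lam i : ℝ)) y u H
  have e : slope S a (b + 1) (fun i => a * lam i + (b + 1) * (mu i + τ i)) y u H =
      slope S ((b + 1) * k₀ + (a - k₀ * (b + 1)) * 1) ((b + 1) * 1 + (a - k₀ * (b + 1)) * 0)
        (fun i => (b + 1) * (k₀ * lam i + mu i + τ i) + (a - k₀ * (b + 1)) * lam i) y u H :=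
    slope_congr S (by ring) (by ring) (fun i => by ring) y u H
  rw [e, h3]
  have h4 := slope_pos_of_stb S hy hu hH
  have h5 := h0 u hu H
  have h6 := mul_pos hb1 h4
  have h7 := mul_nonneg hq h5
  linarith

/-- (4.6), uniform form -/
theorem GSys.eps_unif [CompactSpace X] (S : GSys n X) (a b : ℕ) {χ : Fin n → ℤ}
    (hχ : Antitone χ) : ∃ ε : ℝ, 0 < ε ∧
    ∀ τ : Fin n → ℝ, (∀ i, |τ i| ≤ ε) → ∀ c₀ : ℝ, ∃ c₁ : ℝ, ∀ y,
      (∀ g, c₀ ≤ S.lev a (b + 1) (fun i => χ i + τ i) y g) →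
        ∀ g, c₁ ≤ S.lev a (b + 1) (fun i => (χ i : ℝ)) y g := by
  obtain ⟨d, hd, hgap⟩ := slf_gap S a (b + 1) (fun i => (χ i : ℝ))
  have hK : (0 : ℝ) < 2 * (n * n) + 1 := by positivity
  refine ⟨d / (2 * (2 * (n * n) + 1)), by positivity, fun τ hτ c₀ => ?_⟩
  have hχ' : Antitone (fun i => (χ i : ℝ)) := fun i j hij => by
    have := hχ hij
    show ((χ j : ℤ) : ℝ) ≤ χ i
    exact_mod_cast this
  have key : ∀ y, (∀ g, c₀ ≤ S.lev a (b + 1) (fun i => χ i + τ i) y g) →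
      ∃ O ∈ 𝓝 y, ∃ C : ℝ, ∀ y ∈ O, ∀ g, C ≤ S.lev a (b + 1) (fun i => (χ i : ℝ)) y g := by
    intro y hy
    refine sst_of_slope S a b hχ' fun u hu H => ?_
    by_contra hcon
    rw [not_le] at hcon
    obtain ⟨H', hH', h1⟩ := hgap (sg S y u) ⟨H, hcon⟩
    rw [← slope_eq] at h1
    have h2 : 0 ≤ slope S a (b + 1) (fun i => χ i + τ i) y u H' :=
      slope_nonneg_of_sst S ⟨c₀, hy⟩ u H'
    have h3 := slope_lin S 1 1 a (b + 1) 0 0 (fun i => (χ i : ℝ)) τ y u H'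
    have e : slope S a (b + 1) (fun i => χ i + τ i) y u H' =
        slope S (1 * a + 1 * 0) (1 * (b + 1) + 1 * 0)
          (fun i => 1 * (χ i : ℝ) + 1 * τ i) y u H' :=
      slope_congr S (by ring) (by ring) (fun i => by ring) y u H'
    rw [e, h3] at h2
    have h4 := (abs_le.1 (slope_bound S 0 hτ y u H')).2
    rw [abs_zero, zero_mul, zero_add] at h4
    have h5 : 2 * (d / (2 * (2 * (n * n) + 1))) * ((n : ℝ) * n) * ‖H'‖ ≤ d / 2 := by
      have h6 : 2 * (d / (2 * (2 * (n * n) + 1))) * ((n : ℝ) * n) ≤ d / 2 := by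
        have h7 : 2 * (d / (2 * (2 * (n * n) + 1))) * ((n : ℝ) * n) =
            d * (n * n) / (2 * (n * n) + 1) := by
          field_simp
        rw [h7, div_le_div_iff₀ hK two_pos]
        nlinarith
      have h8 : 0 ≤ 2 * (d / (2 * (2 * (n * n) + 1))) * ((n : ℝ) * n) := by positivity
      calc _ ≤ 2 * (d / (2 * (2 * (n * n) + 1))) * ((n : ℝ) * n) * 1 :=
            mul_le_mul_of_nonneg_left hH' h8
        _ ≤ d / 2 := by rwa [mul_one]
    linarith
  -- compactness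
  have hcl : IsClosed {y | ∀ g, c₀ ≤ S.lev a (b + 1) (fun i => χ i + τ i) y g} :=
    S.isClosed_lev a (b + 1) (fun i => χ i + τ i) c₀
  obtain ⟨c₁, h1⟩ : ∃ c₁ : ℝ, ∀ y ∈ {y | ∀ g, c₀ ≤ S.lev a (b + 1) (fun i => χ i + τ i) y g},
      ∀ g, c₁ ≤ S.lev a (b + 1) (fun i => (χ i : ℝ)) y g := by
    refine hcl.isCompact.induction_on (p := fun s => ∃ c₁ : ℝ, ∀ y ∈ s, ∀ g,
      c₁ ≤ S.lev a (b + 1) (fun i => (χ i : ℝ)) y g) ?_ ?_ ?_ ?_
    · exact ⟨0, fun y hy => absurd hy (Set.notMem_empty y)⟩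
    · rintro s t hst ⟨c, h⟩
      exact ⟨c, fun y hy => h y (hst hy)⟩
    · rintro s t ⟨c, h⟩ ⟨c', h'⟩
      refine ⟨min c c', fun y hy g => ?_⟩
      rcases hy with hy | hy
      · exact (min_le_left _ _).trans (h y hy g)
      · exact (min_le_right _ _).trans (h' y hy g)
    · intro y hy
      obtain ⟨O, hO, C, h⟩ := key y hy
      exact ⟨O, mem_nhdsWithin_of_mem_nhds hO, C, h⟩
  exact ⟨c₁, fun y hy => h1 y hy⟩

/-- (4.6) -/
theorem GSys.eps_zero [CompactSpace X] (S : GSys n X) (a b : ℕ) {χ : Fin n → ℤ}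
    (hχ : Antitone χ) : ∃ ε : ℝ, 0 < ε ∧
    ∀ τ : Fin n → ℝ, (∀ i, |τ i| ≤ ε) → ∀ y, S.Sst a (b + 1) (fun i => χ i + τ i) y →
      S.Sst a (b + 1) (fun i => (χ i : ℝ)) y := by
  obtain ⟨ε, hε, h⟩ := S.eps_unif a b hχ
  refine ⟨ε, hε, fun τ hτ y hy => ?_⟩
  obtain ⟨c₀, hc₀⟩ := hy
  obtain ⟨c₁, hc₁⟩ := h τ hτ c₀
  exact ⟨c₁, hc₁ y hc₀⟩

end Pool.Agent.SG
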