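import Pool.Agent.H.MP_e23cd6_ag.SG.IfR
import Pool.Agent.H.MP_e23cd6_ag.SG.Root

/-!
# Lower triangular matrices, vectors fixed by them, and linear semi-invariants
-/

set_option autoImplicit false

namespace Pool.Agent.SG

open Matrix Topology Filter

variable {n : ℕ}

/-! ## Functionals on `aa n` -/

/-- The element `e_j - e_k` of `aa n`. -/
noncomputable def ejk (j k : Fin n) : aa n :=
  ⟨Pi.single j 1 - Pi.single k 1, by
    show ∑ i, (Pi.single j (1 : ℝ) - Pi.single k 1 : Fin n → ℝ) i = 0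
    simp [Finset.sum_sub_distrib]⟩

theorem const_of_aa {d : Fin n → ℝ} (h : ∀ H : aa n, ∑ j, d j * H.1 j = 0) (j k : Fin n) :
    d j = d k := by
  have h1 := h (ejk j k)
  have e : ∀ i, d i * (ejk j k).1 i = d i * (Pi.single j (1 : ℝ) : Fin n → ℝ) i -
      d i * (Pi.single k (1 : ℝ) : Fin n → ℝ) i := fun i => by
    show d i * ((Pi.single j (1 : ℝ) - Pi.single k 1 : Fin n → ℝ) i) = _
    rw [Pi.sub_apply, mul_sub]
  simp only [e, Finset.sum_sub_distrib, Pi.single_apply, mul_ite, mul_one, mul_zero,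
    Finset.sum_ite_eq', Finset.mem_univ, if_true] at h1
  linarith

open Polynomial in
/-- A regular element of `aa n`. -/
theorem exists_regular {ι : Type} [Fintype ι] [DecidableEq ι] (R : Rep n ι) :
    ∃ H : aa n, StrictAnti H.1 ∧
      ∀ i i', R.lam i H = R.lam i' H → ∀ H' : aa n, R.lam i H' = R.lam i' H' := by
  classical
  obtain ⟨d, hd⟩ : ∃ d : ι → ι → Fin n → ℝ, ∀ i i' k, d i i' k = R.wt i k - R.wt i' k :=
    ⟨_, fun _ _ _ => rfl⟩
  obtain ⟨Q, hQ⟩ : ∃ Q : ι → ι → ℝ[X], ∀ i i', Q i i' =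
      ∑ k : Fin n, C ((∑ l, d i i' l) - n * d i i' k) * X ^ (k : ℕ) := ⟨_, fun _ _ => rfl⟩
  have hcoef : ∀ i i' (k : Fin n), (Q i i').coeff (k : ℕ) = (∑ l, d i i' l) - n * d i i' k := by
    intro i i' k
    rw [hQ, finsetSum_coeff]
    simp only [coeff_C_mul, coeff_X_pow, Fin.val_inj, mul_ite, mul_one, mul_zero]
    rw [Finset.sum_eq_single k]
    · rw [if_pos rfl]
    · intro b _ hb
      rw [if_neg (Ne.symm hb)]
    · intro h
      exact absurd (Finset.mem_univ k) h
  have hfin : (⋃ p : ι × ι, ((Q p.1 p.2).roots.toFinset : Set ℝ)).Finite :=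
    Set.finite_iUnion fun p => Finset.finite_toSet _
  obtain ⟨M, hM1, hM2⟩ := ((Set.Ioi_infinite (1 : ℝ)).sdiff hfin).nonempty
  have hM1' : 1 < M := hM1
  obtain ⟨c, hc⟩ : ∃ c : ℝ, c = (∑ k : Fin n, M ^ (k : ℕ)) / n := ⟨_, rfl⟩
  have hsum : ∑ j : Fin n, (c - M ^ (j : ℕ)) = 0 := by
    rcases Nat.eq_zero_or_pos n with h0 | h0
    · subst h0
      simp
    · have hn : (n : ℝ) ≠ 0 := by positivity
      rw [Finset.sum_sub_distrib, Finset.sum_const, Finset.card_univ, Fintype.card_fin,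
        nsmul_eq_mul, hc, mul_div_cancel₀ _ hn, sub_self]
  refine ⟨⟨fun j => c - M ^ (j : ℕ), hsum⟩, fun j k hjk => ?_, fun i i' h H' => ?_⟩
  · show c - M ^ (k : ℕ) < c - M ^ (j : ℕ)
    have := pow_lt_pow_right₀ hM1' (show (j : ℕ) < (k : ℕ) from hjk)
    linarith
  · rcases Nat.eq_zero_or_pos n with h0 | h0
    · subst h0
      simp [Rep.lam]
    have hn : (n : ℝ) ≠ 0 := by positivity
    have h1 : ∑ k : Fin n, d i i' k * (c - M ^ (k : ℕ)) = 0 := by
      have h2 : R.lam i ⟨fun j => c - M ^ (j : ℕ), hsum⟩ -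
          R.lam i' ⟨fun j => c - M ^ (j : ℕ), hsum⟩ = 0 := by rw [h, sub_self]
      rw [← h2]
      unfold Rep.lam
      rw [← Finset.sum_sub_distrib]
      refine Finset.sum_congr rfl fun k _ => ?_
      rw [hd]
      ring
    have h3 : (Q i i').eval M = 0 := by
      rw [hQ, eval_finsetSum]
      simp only [eval_mul, eval_C, eval_pow, eval_X]
      have h4 : ∑ k : Fin n, ((∑ l, d i i' l) - n * d i i' k) * M ^ (k : ℕ) =
          (∑ l, d i i' l) * ∑ k : Fin n, M ^ (k : ℕ) - n * ∑ k : Fin n, d i i' k * M ^ (k : ℕ) := by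
        rw [Finset.mul_sum, Finset.mul_sum, ← Finset.sum_sub_distrib]
        refine Finset.sum_congr rfl fun k _ => ?_
        ring
      have h5 : ∑ k : Fin n, d i i' k * (c - M ^ (k : ℕ)) =
          (∑ l, d i i' l) * c - ∑ k : Fin n, d i i' k * M ^ (k : ℕ) := by
        rw [Finset.sum_mul, ← Finset.sum_sub_distrib]
        refine Finset.sum_congr rfl fun k _ => ?_
        ring
      rw [h4]
      rw [h5, hc] at h1
      have h6 : (∑ l, d i i' l) * ((∑ k : Fin n, M ^ (k : ℕ)) / n) * n =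
          (∑ l, d i i' l) * ∑ k : Fin n, M ^ (k : ℕ) := by
        field_simp
      have h7 : ((∑ l, d i i' l) * ((∑ k : Fin n, M ^ (k : ℕ)) / n) -
          ∑ k : Fin n, d i i' k * M ^ (k : ℕ)) * n = 0 := by rw [h1, zero_mul]
      rw [sub_mul, h6] at h7
      linarith
    have hQ0 : Q i i' = 0 := by
      by_contra hne
      apply hM2
      refine Set.mem_iUnion.2 ⟨(i, i'), ?_⟩
      simp only [Finset.mem_coe, Multiset.mem_toFinset]
      exact (mem_roots hne).2 h3
    have h8 : ∀ k, d i i' k = (∑ l, d i i' l) / n := by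
      intro k
      have h9 := hcoef i i' k
      rw [hQ0, coeff_zero] at h9
      rw [eq_div_iff hn]
      linarith
    have h10 : R.lam i H' - R.lam i' H' = ∑ k, d i i' k * H'.1 k := by
      unfold Rep.lam
      rw [← Finset.sum_sub_distrib]
      refine Finset.sum_congr rfl fun k _ => ?_
      rw [hd]
      ring
    have h11 : ∑ k, d i i' k * H'.1 k = 0 := by
      have h12 : ∑ k, d i i' k * H'.1 k = (∑ l, d i i' l) / n * ∑ k, H'.1 k := by
        rw [Finset.mul_sum]
        refine Finset.sum_congr rfl fun k _ => ?_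
        rw [← h8]
      rw [h12, aa_sum, mul_zero]
    linarith

/-! ## Lower triangular matrices -/

theorem isBm_ct {b : Gp n} (hb : IsB b) : IsBm (ct b) := by
  intro i j hij
  show star ((b : Matrix (Fin n) (Fin n) ℂ) j i) = 0
  rw [hb j i hij, star_zero]

theorem isB_ct {b : Gp n} (hb : IsBm b) : IsB (ct b) := by
  intro i j hij
  show star ((b : Matrix (Fin n) (Fin n) ℂ) j i) = 0
  rw [hb j i hij, star_zero]

/-- Lower unipotent matrices. -/
def IsNm (u : Gp n) : Prop := IsBm u ∧ ∀ i, (u : Matrix (Fin n) (Fin n) ℂ) i i = 1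

theorem isBm_prod {b : Gp n} (hb : IsBm b) :
    ∏ i, (b : Matrix (Fin n) (Fin n) ℂ) i i = 1 := by
  have h1 : (b : Matrix (Fin n) (Fin n) ℂ).det = ∏ i, (b : Matrix (Fin n) (Fin n) ℂ) i i :=
    det_of_isLowerTriangular _ fun i j hij => hb i j hij
  rw [← h1, b.det_coe]

theorem isBm_diag_ne {b : Gp n} (hb : IsBm b) (i : Fin n) :
    (b : Matrix (Fin n) (Fin n) ℂ) i i ≠ 0 := by
  intro h0
  have h2 : ∏ i, (b : Matrix (Fin n) (Fin n) ℂ) i i = 0 :=
    Finset.prod_eq_zero (Finset.mem_univ i) h0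
  rw [isBm_prod hb] at h2
  exact one_ne_zero h2

/-- A lower triangular matrix is the product of a lower unipotent and a diagonal matrix. -/
theorem isBm_decomp {b : Gp n} (hb : IsBm b) : ∃ u : Gp n, IsNm u ∧
    b = u * dgT (fun i => (b : Matrix (Fin n) (Fin n) ℂ) i i) (isBm_prod hb) := by
  obtain ⟨t, ht⟩ : ∃ t : Gp n,
    t = dgT (fun i => (b : Matrix (Fin n) (Fin n) ℂ) i i) (isBm_prod hb) := ⟨_, rfl⟩
  rw [← ht]
  have hti : ∏ i, ((b : Matrix (Fin n) (Fin n) ℂ) i i)⁻¹ = 1 := by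
    rw [Finset.prod_inv_distrib, isBm_prod hb, inv_one]
  have hinv : t⁻¹ = dgT (fun i => ((b : Matrix (Fin n) (Fin n) ℂ) i i)⁻¹) hti := by
    symm
    apply eq_inv_of_mul_eq_one_left
    rw [ht]
    apply gp_ext
    rw [coe_gmul, coe_gone]
    show diagonal (fun i => ((b : Matrix (Fin n) (Fin n) ℂ) i i)⁻¹) *
      diagonal (fun i => (b : Matrix (Fin n) (Fin n) ℂ) i i) = 1
    rw [diagonal_mul_diagonal, ← diagonal_one]
    congr 1
    funext i
    exact inv_mul_cancel₀ (isBm_diag_ne hb i)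
  have hent : ∀ i j, ((b * t⁻¹ : Gp n) : Matrix (Fin n) (Fin n) ℂ) i j =
      (b : Matrix (Fin n) (Fin n) ℂ) i j * ((b : Matrix (Fin n) (Fin n) ℂ) j j)⁻¹ := by
    intro i j
    rw [coe_gmul, hinv]
    show ((b : Matrix (Fin n) (Fin n) ℂ) *
      diagonal (fun i => ((b : Matrix (Fin n) (Fin n) ℂ) i i)⁻¹)) i j = _
    rw [mul_diagonal]
  refine ⟨b * t⁻¹, ⟨fun i j hij => ?_, fun i => ?_⟩, by rw [inv_mul_cancel_right]⟩
  · rw [hent, hb i j hij, zero_mul]
  · rw [hent, mul_inv_cancel₀ (isBm_diag_ne hb i)]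

/-- Conjugation by `exp (s H)` contracts the lower unipotent matrices. -/
theorem tendsto_conj {H : aa n} (hH : StrictAnti H.1) {u : Gp n} (hu : IsNm u) :
    Tendsto (fun s : ℝ => dg H s * u * dg H (-(s : ℂ))) atTop (𝓝 1) := by
  have hval : ∀ (s : ℝ) (i j : Fin n),
      ((dg H s * u * dg H (-(s : ℂ)) : Gp n) : Matrix (Fin n) (Fin n) ℂ) i j =
        Complex.exp (s * (H.1 i - H.1 j)) * (u : Matrix (Fin n) (Fin n) ℂ) i j := by
    intro s i j
    rw [coe_gmul, coe_gmul, coe_dg, coe_dg, mul_diagonal, diagonal_mul, mul_comm, ← mul_assoc,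
      ← Complex.exp_add]
    congr 2
    push_cast
    ring
  have hind : Topology.IsInducing (fun g : Gp n => (g : Matrix (Fin n) (Fin n) ℂ)) := ⟨rfl⟩
  rw [hind.tendsto_nhds_iff]
  refine tendsto_pi_nhds.2 fun i => tendsto_pi_nhds.2 fun j => ?_
  have e : (fun s : ℝ => ((dg H s * u * dg H (-(s : ℂ)) : Gp n) : Matrix (Fin n) (Fin n) ℂ) i j) =
      fun s : ℝ => Complex.exp (s * (H.1 i - H.1 j)) * (u : Matrix (Fin n) (Fin n) ℂ) i j :=
    funext fun s => hval s i j
  show Tendsto (fun s : ℝ => ((dg H s * u * dg H (-(s : ℂ)) : Gp n) :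
    Matrix (Fin n) (Fin n) ℂ) i j) atTop (𝓝 ((1 : Matrix (Fin n) (Fin n) ℂ) i j))
  rw [e]
  rcases lt_trichotomy i j with hij | hij | hij
  · rw [hu.1 i j hij, Matrix.one_apply_ne hij.ne]
    simp only [mul_zero]
    exact tendsto_const_nhds
  · subst hij
    rw [hu.2 i, Matrix.one_apply_eq]
    simp only [sub_self, mul_zero, Complex.exp_zero, one_mul]
    exact tendsto_const_nhds
  · rw [Matrix.one_apply_ne hij.ne']
    have hneg : H.1 i - H.1 j < 0 := sub_neg.2 (hH hij)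
    have h1 : Tendsto (fun s : ℝ => Complex.exp (s * (H.1 i - H.1 j))) atTop (𝓝 0) := by
      rw [tendsto_zero_iff_norm_tendsto_zero]
      have h2 : (fun s : ℝ => ‖Complex.exp (s * (H.1 i - H.1 j))‖) =
          fun s : ℝ => Real.exp (s * (H.1 i - H.1 j)) := by
        funext s
        rw [Complex.norm_exp]
        congr 1
        rw [← Complex.ofReal_sub, ← Complex.ofReal_mul, Complex.ofReal_re]
      rw [h2]
      exact Real.tendsto_exp_atBot.comp (tendsto_id.atTop_mul_const_of_neg hneg)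
    have h3 := h1.mul_const ((u : Matrix (Fin n) (Fin n) ℂ) i j)
    rwa [zero_mul] at h3

end Pool.Agent.SG
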