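import Pool.Agent.H.MP_e23cd6_ag.SG.S.BaseA

/-!
# Vectors with extremal growth, and vectors fixed up to scalars by the lower triangular matrices
-/

set_option autoImplicit false

namespace Pool.Agent.SG

open Matrix Topology Filter

variable {n : ℕ}

/-- Equality in the inequality of Cauchy and Schwarz. -/
theorem supp_of_le {ι : Type} [Fintype ι] (a x : ι → ℝ) (ha : ∀ i, 0 ≤ a i) (hx : ∀ i, 0 < x i)
    (h : (∑ i, a i * x i) * (∑ i, a i * (x i)⁻¹) ≤ (∑ i, a i) ^ 2) {i j : ι} (hi : a i ≠ 0)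
    (hj : a j ≠ 0) : x i = x j := by
  have hterm : ∀ i j, 0 ≤ a i * a j * ((x i - x j) ^ 2 * ((x i)⁻¹ * (x j)⁻¹)) := fun i j =>
    mul_nonneg (mul_nonneg (ha i) (ha j)) (mul_nonneg (sq_nonneg _)
      (mul_nonneg (inv_nonneg.2 (hx i).le) (inv_nonneg.2 (hx j).le)))
  have e : ∀ i j, a i * a j * ((x i - x j) ^ 2 * ((x i)⁻¹ * (x j)⁻¹)) =
      (a i * x i) * (a j * (x j)⁻¹) + (a i * (x i)⁻¹) * (a j * x j) - 2 * (a i * a j) := by
    intro i j
    have h1 := (hx i).ne'
    have h2 := (hx j).ne'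
    field_simp
    ring
  have hsum : ∑ i, ∑ j, a i * a j * ((x i - x j) ^ 2 * ((x i)⁻¹ * (x j)⁻¹)) ≤ 0 := by
    simp only [e, Finset.sum_sub_distrib, Finset.sum_add_distrib, ← Finset.mul_sum]
    rw [← Finset.sum_mul, ← Finset.sum_mul, ← Finset.sum_mul]
    nlinarith
  have hz := (Finset.sum_eq_zero_iff_of_nonneg (fun i _ => Finset.sum_nonneg fun j _ =>
    hterm i j)).1 (le_antisymm hsum (Finset.sum_nonneg fun i _ => Finset.sum_nonneg fun j _ =>
      hterm i j)) i (Finset.mem_univ i)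
  have hz2 := (Finset.sum_eq_zero_iff_of_nonneg (fun j _ => hterm i j)).1 hz j (Finset.mem_univ j)
  have h3 : (x i - x j) ^ 2 = 0 := by
    rcases mul_eq_zero.1 hz2 with h4 | h4
    · exact absurd h4 (mul_ne_zero hi hj)
    · rcases mul_eq_zero.1 h4 with h5 | h5
      · exact h5
      · exact absurd h5 (mul_ne_zero (inv_ne_zero (hx i).ne') (inv_ne_zero (hx j).ne'))
  exact sub_eq_zero.1 (pow_eq_zero_iff two_ne_zero |>.1 h3)

section rep

variable {ι : Type} [Fintype ι] [DecidableEq ι] (R : Rep n ι)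

/-- A vector whose norm does not grow in the middle is an eigenvector. -/
theorem supp_of_growth {v : ι → ℂ} {H : aa n}
    (h : ns (R.act (dg H 1) v) * ns (R.act (dg H (-1)) v) ≤ ns v ^ 2) {i j : ι} (hi : v i ≠ 0)
    (hj : v j ≠ 0) : R.lam i H = R.lam j H := by
  have e1 : ns (R.act (dg H 1) v) = ∑ i, ‖v i‖ ^ 2 * Real.exp (2 * R.lam i H) := by
    have h1 := R.ns_act_dg H 1 v
    rw [Complex.ofReal_one] at h1
    rw [h1]
    refine Finset.sum_congr rfl fun i _ => ?_
    rw [mul_one, mul_comm]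
  have e2 : ns (R.act (dg H (-1)) v) = ∑ i, ‖v i‖ ^ 2 * (Real.exp (2 * R.lam i H))⁻¹ := by
    have h1 := R.ns_act_dg H (-1) v
    rw [Complex.ofReal_neg, Complex.ofReal_one] at h1
    rw [h1]
    refine Finset.sum_congr rfl fun i _ => ?_
    rw [← Real.exp_neg, mul_comm]
    congr 2
    ring
  rw [e1, e2] at h
  have h3 := supp_of_le (fun i => ‖v i‖ ^ 2) (fun i => Real.exp (2 * R.lam i H))
    (fun i => sq_nonneg _) (fun i => Real.exp_pos _) h (i := i) (j := j)
    (pow_ne_zero 2 (norm_ne_zero_iff.2 hi)) (pow_ne_zero 2 (norm_ne_zero_iff.2 hj))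
  have h4 := Real.exp_injective h3
  linarith

/-- The lower unipotent matrices fix the vectors of minimal growth. -/
theorem fixed_of_growth {v : ι → ℂ} {H : aa n} (hH : StrictAnti H.1) {α : ℝ}
    (hα : ∀ i, v i ≠ 0 → R.lam i H = α) {u : Gp n} (hu : IsNm u)
    (h : Real.exp (2 * α) * ns (R.act u v) ≤ ns (R.act (dg H 1) (R.act u v))) :
    R.act u v = v := by
  -- the limit of the conjugates
  have hlim : Tendsto (fun s : ℝ => R.act (dg H s * u * dg H (-(s : ℂ))) v) atTop (𝓝 v) := by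
    have h1 : Continuous fun g : Gp n => R.act g v :=
      R.continuous_act.comp (continuous_id.prodMk continuous_const)
    have h2 := (h1.tendsto 1).comp (tendsto_conj hH hu)
    rwa [R.act_one] at h2
  have hdiag : ∀ s : ℝ, R.act (dg H (-(s : ℂ))) v = Complex.exp (-(s : ℂ) * α) • v := by
    intro s
    funext i
    rw [R.act_dg, Pi.smul_apply, smul_eq_mul]
    by_cases hi : v i = 0
    · rw [hi, mul_zero, mul_zero]
    · rw [hα i hi]
  have hcomp : ∀ (s : ℝ) (i : ι), R.act (dg H s * u * dg H (-(s : ℂ))) v i =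
      Complex.exp (s * (R.lam i H - α)) * R.act u v i := by
    intro s i
    rw [R.act_mul, hdiag, R.act_smul, Pi.smul_apply, smul_eq_mul, R.act_mul, R.act_dg, ← mul_assoc,
      ← Complex.exp_add]
    congr 2
    ring
  have hi1 : ∀ i, Tendsto (fun s : ℝ => Complex.exp (s * (R.lam i H - α)) * R.act u v i) atTop
      (𝓝 (v i)) := by
    intro i
    have h1 := (tendsto_pi_nhds.1 hlim) i
    refine h1.congr fun s => ?_
    exact hcomp s i
  -- components with a larger eigenvalue vanish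
  have hgt : ∀ i, α < R.lam i H → R.act u v i = 0 := by
    intro i hi
    by_contra h0
    have h1 := (hi1 i).norm
    have h2 : Tendsto (fun s : ℝ => ‖Complex.exp (s * (R.lam i H - α)) * R.act u v i‖) atTop
        atTop := by
      have h3 : (fun s : ℝ => ‖Complex.exp (s * (R.lam i H - α)) * R.act u v i‖) =
          fun s : ℝ => Real.exp (s * (R.lam i H - α)) * ‖R.act u v i‖ := by
        funext s
        rw [norm_mul, Complex.norm_exp]
        congr 2
        rw [← Complex.ofReal_sub, ← Complex.ofReal_mul, Complex.ofReal_re]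
      rw [h3]
      exact (Real.tendsto_exp_atTop.comp
        (tendsto_id.atTop_mul_const (sub_pos.2 hi))).atTop_mul_const (norm_pos_iff.2 h0)
    exact not_tendsto_nhds_of_tendsto_atTop h2 _ h1
  have heq : ∀ i, R.lam i H = α → R.act u v i = v i := by
    intro i hi
    have h1 := hi1 i
    simp only [hi, sub_self, mul_zero, Complex.exp_zero, one_mul] at h1
    exact tendsto_nhds_unique tendsto_const_nhds h1
  -- components with a smaller eigenvalue vanish
  have hlt : ∀ i, R.lam i H < α → R.act u v i = 0 := by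
    have e1 : ns (R.act (dg H 1) (R.act u v)) =
        ∑ i, Real.exp (2 * R.lam i H) * ‖R.act u v i‖ ^ 2 := by
      have h1 := R.ns_act_dg H 1 (R.act u v)
      rw [Complex.ofReal_one] at h1
      rw [h1]
      simp only [mul_one]
    rw [e1, ns, Finset.mul_sum] at h
    have hterm : ∀ i, 0 ≤ (Real.exp (2 * α) - Real.exp (2 * R.lam i H)) * ‖R.act u v i‖ ^ 2 := by
      intro i
      rcases le_or_gt (R.lam i H) α with h1 | h1
      · refine mul_nonneg (sub_nonneg.2 (Real.exp_le_exp.2 ?_)) (sq_nonneg _)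
        linarith
      · rw [hgt i h1, norm_zero]
        norm_num
    have hsum : ∑ i, (Real.exp (2 * α) - Real.exp (2 * R.lam i H)) * ‖R.act u v i‖ ^ 2 ≤ 0 := by
      simp only [sub_mul, Finset.sum_sub_distrib]
      linarith
    intro i hi
    have h2 := (Finset.sum_eq_zero_iff_of_nonneg (fun i _ => hterm i)).1
      (le_antisymm hsum (Finset.sum_nonneg fun i _ => hterm i)) i (Finset.mem_univ i)
    have h3 : Real.exp (2 * α) - Real.exp (2 * R.lam i H) ≠ 0 := by
      have : Real.exp (2 * R.lam i H) < Real.exp (2 * α) := Real.exp_lt_exp.2 (by linarith)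
      exact (sub_pos.2 this).ne'
    have h4 := (mul_eq_zero.1 h2).resolve_left h3
    exact norm_eq_zero.1 (pow_eq_zero_iff two_ne_zero |>.1 h4)
  funext i
  rcases lt_trichotomy (R.lam i H) α with h1 | h1 | h1
  · rw [hlt i h1]
    by_contra h0
    have := hα i (Ne.symm h0)
    exact absurd this h1.ne
  · exact heq i h1
  · rw [hgt i h1]
    by_contra h0
    have := hα i (Ne.symm h0)
    exact absurd this h1.ne'

/-- The diagonal matrices act by scalars on the vectors of a single weight. -/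
theorem act_dgT_of_supp {v : ι → ℂ} {i₀ : ι}
    (h : ∀ i, v i ≠ 0 → ∀ H : aa n, R.lam i H = R.lam i₀ H) {τ : Fin n → ℂ}
    (hτ : ∏ i, τ i = 1) : R.act (dgT τ hτ) v = (∏ j, τ j ^ R.wt i₀ j) • v := by
  have hτ0 : ∀ j, τ j ≠ 0 := fun j h0 => by
    rw [Finset.prod_eq_zero (Finset.mem_univ j) h0] at hτ
    exact zero_ne_one hτ
  funext i
  unfold Rep.act
  rw [R.diag, Matrix.mulVec_diagonal, Pi.smul_apply, smul_eq_mul]
  by_cases hi : v i = 0
  · rw [hi, mul_zero, mul_zero]
  congr 1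
  have h1 : ∀ j k, ((R.wt i j : ℝ) - R.wt i₀ j) = (R.wt i k - R.wt i₀ k) := by
    refine const_of_aa fun H => ?_
    have h2 := h i hi H
    unfold Rep.lam at h2
    simp only [sub_mul, Finset.sum_sub_distrib]
    linarith
  rcases isEmpty_or_nonempty (Fin n) with hE | hE
  · simp
  · obtain ⟨k⟩ := hE
    have h3 : ∀ j, R.wt i j = R.wt i₀ j + (R.wt i k - R.wt i₀ k) := by
      intro j
      have h4 := h1 j k
      have h5 : (R.wt i j : ℝ) = ((R.wt i₀ j + (R.wt i k - R.wt i₀ k) : ℤ) : ℝ) := by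
        push_cast
        linarith
      exact_mod_cast h5
    have h6 : ∏ j, τ j ^ R.wt i j = (∏ j, τ j ^ R.wt i₀ j) *
        (∏ j, τ j) ^ (R.wt i k - R.wt i₀ k) := by
      rw [← Finset.prod_zpow, ← Finset.prod_mul_distrib]
      refine Finset.prod_congr rfl fun j _ => ?_
      rw [← zpow_add₀ (hτ0 j), ← h3]
    rw [h6, hτ, _root_.one_zpow, mul_one]

/-- If the lower triangular matrices preserve the line of `v`, they act on it by a character. -/
theorem act_Bm {v : ι → ℂ} (hline : ∀ g, IsBm g → ∃ z : ℂ, R.act g v = z • v)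
    {i₀ : ι} (hi₀ : v i₀ ≠ 0) {g : Gp n} (hg : IsBm g) :
    R.act g v = (∏ j, (g : Matrix (Fin n) (Fin n) ℂ) j j ^ R.wt i₀ j) • v := by
  have hv : v ≠ 0 := fun h0 => hi₀ (by rw [h0]; rfl)
  have hdg : ∀ {τ : Fin n → ℂ} (hτ : ∏ i, τ i = 1), IsBm (dgT τ hτ) := by
    intro τ hτ i j hij
    show (diagonal τ : Matrix (Fin n) (Fin n) ℂ) i j = 0
    exact diagonal_apply_ne _ hij.ne
  -- diagonal matrices
  have hT : ∀ {τ : Fin n → ℂ} (hτ : ∏ i, τ i = 1),
      R.act (dgT τ hτ) v = (∏ j, τ j ^ R.wt i₀ j) • v := by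
    intro τ hτ
    obtain ⟨z, hz⟩ := hline _ (hdg hτ)
    have h1 := congrFun hz i₀
    have h2 : R.act (dgT τ hτ) v i₀ = (∏ j, τ j ^ R.wt i₀ j) * v i₀ := by
      unfold Rep.act
      rw [R.diag, Matrix.mulVec_diagonal]
    rw [h2, Pi.smul_apply, smul_eq_mul] at h1
    rw [hz, mul_right_cancel₀ hi₀ h1]
  -- unipotent matrices
  have hN : ∀ u, IsNm u → R.act u v = v := by
    intro u hu
    obtain ⟨z, hz⟩ := hline u hu.1
    obtain ⟨H, hH, -⟩ := exists_regular R
    have h1 : Continuous fun g : Gp n => R.act g v :=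
      R.continuous_act.comp (continuous_id.prodMk continuous_const)
    have h2 := (h1.tendsto 1).comp (tendsto_conj hH hu)
    rw [R.act_one] at h2
    have h3 : ∀ s : ℝ, R.act (dg H s * u * dg H (-(s : ℂ))) v = z • v := by
      intro s
      obtain ⟨c, hc⟩ := hline (dg H (-(s : ℂ))) (hdg _)
      have h4 : R.act (dg H s) (c • v) = v := by
        rw [← hc, ← R.act_mul, ← dg_add, add_neg_cancel, dg_zero, R.act_one]
      rw [R.act_mul, hc, R.act_mul, R.act_smul, hz, smul_comm, R.act_smul, h4]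
    have h5 : Tendsto (fun _ : ℝ => z • v) atTop (𝓝 v) := by
      refine h2.congr fun s => ?_
      exact h3 s
    have h6 : z • v = v := tendsto_nhds_unique tendsto_const_nhds h5
    rw [hz, h6]
  obtain ⟨u, hu, hgu⟩ := isBm_decomp hg
  have h7 := hT (isBm_prod hg)
  conv_lhs => rw [hgu]
  rw [R.act_mul, h7, R.act_smul, hN u hu]

/-- The linear form given by such a vector is semi-invariant under `B`. -/
theorem exists_linear {v : ι → ℂ} (hline : ∀ g, IsBm g → ∃ z : ℂ, R.act g v = z • v)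
    {i₀ : ι} (hi₀ : v i₀ ≠ 0) {χ : Fin n → ℤ} {c : ℤ} (hχ : ∀ j, χ j = -R.wt i₀ j + c) :
    ∃ p ∈ BPoly R 1 χ, MvPolynomial.eval v p ≠ 0 := by
  have hv : v ≠ 0 := fun h0 => hi₀ (by rw [h0]; rfl)
  have hev : ∀ w : ι → ℂ, MvPolynomial.eval w
      (∑ i, MvPolynomial.C (star (v i)) * MvPolynomial.X i : MvPolynomial ι ℂ) = ip w v := by
    intro w
    rw [map_sum]
    unfold ip
    refine Finset.sum_congr rfl fun i _ => ?_
    rw [map_mul, MvPolynomial.eval_C, MvPolynomial.eval_X, mul_comm]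
  refine ⟨∑ i, MvPolynomial.C (star (v i)) * MvPolynomial.X i, ⟨?_, fun b hb w => ?_⟩, ?_⟩
  · refine MvPolynomial.IsHomogeneous.sum _ _ _ fun i _ => ?_
    have h1 := (MvPolynomial.isHomogeneous_C ι (star (v i))).mul
      (MvPolynomial.isHomogeneous_X ℂ i)
    rwa [zero_add] at h1
  · rw [hev, hev, R.ip_act, act_Bm R hline hi₀ (isBm_ct hb)]
    have h1 : ip w ((∏ j, (ct b : Matrix (Fin n) (Fin n) ℂ) j j ^ R.wt i₀ j) • v) =
        star (∏ j, (ct b : Matrix (Fin n) (Fin n) ℂ) j j ^ R.wt i₀ j) * ip w v := by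
      rw [← ip_star, ip_smul_left, star_mul, ip_star, mul_comm]
    have h2 : star (∏ j, (ct b : Matrix (Fin n) (Fin n) ℂ) j j ^ R.wt i₀ j) =
        chrB (R.wt i₀) b := by
      unfold chrB
      rw [star_prod]
      refine Finset.prod_congr rfl fun j _ => ?_
      have h3 : (ct b : Matrix (Fin n) (Fin n) ℂ) j j =
        star ((b : Matrix (Fin n) (Fin n) ℂ) j j) := rfl
      rw [star_zpow₀, h3, star_star]
    rw [h1, h2]
    have h4 : chrB χ b * chrB (R.wt i₀) b = 1 := by
      rw [← chrB_add hb]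
      have h5 : χ + R.wt i₀ = fun _ => c := by
        funext j
        rw [Pi.add_apply, hχ]
        ring
      rw [h5, chrB_const c hb]
    rw [← mul_assoc, h4, one_mul]
  · rw [hev, ip_self]
    have h1 : ns v ≠ 0 := fun h0 => hv (ns_eq_zero.1 h0)
    exact_mod_cast h1

end rep

end Pool.Agent.SG
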