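import Pool.Agent.H.MP_e23cd6_ag.SG.S.Crit

/-!
# Basic properties of the level functions
-/

set_option autoImplicit false

open Matrix Topology
open scoped Classical

namespace Pool.Agent.SG

open St

variable {n : ℕ} {X : Type} [TopologicalSpace X]

theorem PDat.lg_SU {act : Gp n → X → X} (D : PDat n X act) {k : Gp n} (hk : k ∈ SU n) (g : Gp n)
    (y : X) : D.lg (k * g) y = D.lg g y := by
  unfold PDat.lg
  rw [D.R.act_mul, D.R.ns_act_SU hk]

theorem PDat.lg_mul {act : Gp n → X → X} (D : PDat n X act) (g h : Gp n) (y : X) :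
    D.lg (g * h) y = D.lg g (act h y) + D.lg h y := by
  obtain ⟨z, hz, e⟩ := D.eqv h y
  unfold PDat.lg
  rw [D.R.act_mul, e, D.R.act_smul, ns_smul, ns_smul,
    Real.log_mul (pow_ne_zero 2 (norm_ne_zero_iff.2 hz)) (ns_pos (act_ne D.R g (D.ne _))).ne',
    Real.log_mul (pow_ne_zero 2 (norm_ne_zero_iff.2 hz)) (ns_pos (D.ne _)).ne']
  ring

theorem hw_mul_B {b : Gp n} (hb : IsB b) (g : Gp n) (i : Fin n) :
    hw (g * b) i = hw g i + hw b i := by
  rw [hw_B hb, hw_isB hb]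

namespace GSys

variable (S : GSys n X)

theorem lev_SU (a b : ℝ) (θ : Fin n → ℝ) (y : X) (g : Gp n) {k : Gp n} (hk : k ∈ SU n) :
    S.lev a b θ y (k * g) = S.lev a b θ y g := by
  unfold lev fL fP
  rw [PDat.lg_SU _ hk, PDat.lg_SU _ hk, hw_SU hk]

theorem lev_mul (a b : ℝ) (θ : Fin n → ℝ) (y : X) (g : Gp n) {b' : Gp n} (hb : IsB b') :
    S.lev a b θ y (g * b') = S.lev a b θ (S.act b' y) g + S.lev a b θ y b' := by
  unfold lev fL fP
  rw [PDat.lg_mul, PDat.lg_mul]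
  simp only [hw_mul_B hb, mul_add, Finset.sum_add_distrib]
  ring

theorem lev_one (a b : ℝ) (θ : Fin n → ℝ) (y : X) : S.lev a b θ y 1 = 0 := by
  have hB : IsB (1 : Gp n) := fun i j h => Matrix.one_apply_ne h.ne'
  have h := S.lev_mul a b θ y 1 hB
  rw [one_mul, S.one] at h
  linarith

theorem lg_eq (a b : ℕ) (g : Gp n) (y : X) :
    (S.D a b).lg g y = Real.log (∑ i, rc S a b g y i) / 2 := by
  have hns := ns_pos ((S.D a b).ne y)
  have h1 : ∑ i, rc S a b g y i = ns ((S.D a b).R.act g ((S.D a b).v y)) / ns ((S.D a b).v y) := by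
    unfold rc
    rw [← Finset.sum_div]
    rfl
  rw [h1, Real.log_div (ns_pos (act_ne _ g ((S.D a b).ne y))).ne' hns.ne']
  rfl

theorem sum_rc_pos (a b : ℕ) (g : Gp n) (y : X) : 0 < ∑ i, rc S a b g y i := by
  have h1 : ∑ i, rc S a b g y i = ns ((S.D a b).R.act g ((S.D a b).v y)) / ns ((S.D a b).v y) := by
    unfold rc
    rw [← Finset.sum_div]
    rfl
  rw [h1]
  exact div_pos (ns_pos (act_ne _ g ((S.D a b).ne y))) (ns_pos ((S.D a b).ne y))

theorem lg_cont (a b : ℕ) : Continuous fun p : Gp n × X => (S.D a b).lg p.1 p.2 := by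
  simp only [S.lg_eq a b]
  exact ((continuous_finsetSum _ fun i _ => rc_cont S a b i).log
    fun p => (S.sum_rc_pos a b p.1 p.2).ne').div_const 2

theorem lev_cont (a b : ℝ) (θ : Fin n → ℝ) :
    Continuous fun p : Gp n × X => S.lev a b θ p.2 p.1 := by
  unfold lev fL fP
  have h1 := (S.lg_cont 1 0).div_const (S.c 1 0 : ℝ)
  have h0 := (S.lg_cont 0 0).div_const (S.c 0 0 : ℝ)
  exact ((continuous_const.mul (h1.sub h0)).add (continuous_const.mul h0)).add
    (continuous_finsetSum _ fun i _ => continuous_const.mul ((hw_cont i).comp continuous_fst))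

theorem lg_dg_le (a b : ℕ) (y : X) {u : Gp n} (hu : u ∈ SU n) (H : aa n) :
    |(S.D a b).lg (dg H 1 * u) y| ≤ (S.D a b).R.Wt * ‖H‖ := by
  rw [lg_dg']
  have h1 : ∑ i, rc S a b u y i = 1 := by
    have h2 : ∑ i, rc S a b u y i =
        ns ((S.D a b).R.act u ((S.D a b).v y)) / ns ((S.D a b).v y) := by
      unfold rc
      rw [← Finset.sum_div]
      rfl
    rw [h2, (S.D a b).R.ns_act_SU hu, div_self (ns_pos ((S.D a b).ne y)).ne']
  have hW : 0 ≤ (S.D a b).R.Wt * ‖H‖ := mul_nonneg (S.D a b).R.Wt_nonneg (norm_nonneg _)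
  have h3 : ∑ i, rc S a b u y i * Real.exp (2 * (S.D a b).R.lam i H) ≤
      Real.exp (2 * ((S.D a b).R.Wt * ‖H‖)) := by
    calc ∑ i, rc S a b u y i * Real.exp (2 * (S.D a b).R.lam i H)
        ≤ ∑ i, rc S a b u y i * Real.exp (2 * ((S.D a b).R.Wt * ‖H‖)) := by
          refine Finset.sum_le_sum fun i _ => mul_le_mul_of_nonneg_left
            (Real.exp_le_exp.2 ?_) (rc_nonneg S a b u y i)
          have := (abs_le.1 (lam_abs_le (S.D a b).R i H)).2
          linarith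
      _ = _ := by rw [← Finset.sum_mul, h1, one_mul]
  have h4 : Real.exp (-(2 * ((S.D a b).R.Wt * ‖H‖))) ≤
      ∑ i, rc S a b u y i * Real.exp (2 * (S.D a b).R.lam i H) := by
    calc Real.exp (-(2 * ((S.D a b).R.Wt * ‖H‖)))
        = ∑ i, rc S a b u y i * Real.exp (-(2 * ((S.D a b).R.Wt * ‖H‖))) := by
          rw [← Finset.sum_mul, h1, one_mul]
      _ ≤ _ := by
          refine Finset.sum_le_sum fun i _ => mul_le_mul_of_nonneg_left
            (Real.exp_le_exp.2 ?_) (rc_nonneg S a b u y i)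
          have := (abs_le.1 (lam_abs_le (S.D a b).R i H)).1
          linarith
  have h5 := Real.log_le_log (Real.exp_pos _) h4
  have h6 := Real.log_le_log (lt_of_lt_of_le (Real.exp_pos _) h4) h3
  rw [Real.log_exp] at h5 h6
  rw [abs_le]
  constructor <;> linarith

theorem norm_le_sz_dg (H : aa n) : ‖H‖ ≤ n * sz (dg H 1) := by
  have h0 : 0 ≤ (n : ℝ) * sz (dg H 1) := mul_nonneg (Nat.cast_nonneg n) (sz_nonneg _)
  exact (pi_norm_le_iff_of_nonneg h0).2 fun i => (sz_dg H i).1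

theorem sz_dg_le (H : aa n) : sz (dg H 1) ≤ 2 * n * ‖H‖ + Real.log n := by
  cases n with
  | zero =>
    have : sz (dg H 1) = 0 := by
      unfold sz
      simp
    rw [this]
    simp
  | succ m =>
    refine (sz_dg H 0).2.trans ?_
    have h : ∑ j, |H.1 j| ≤ ((m + 1 : ℕ) : ℝ) * ‖H‖ := by
      refine (Finset.sum_le_sum fun j _ => norm_le_aa H j).trans ?_
      rw [Finset.sum_const, Finset.card_univ, Fintype.card_fin, nsmul_eq_mul]
    linarith

/-- Uniform growth of the metrics. -/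
theorem lev_le (a b : ℝ) (θ : Fin n → ℝ) : ∃ C : ℝ, ∀ y g,
    |S.lev a b θ y g| ≤ C * (sz g + 1) := by
  obtain ⟨C0, hC0⟩ := hw_le_sz (n := n)
  have key : ∀ a b : ℕ, ∃ C : ℝ, 0 ≤ C ∧ ∀ y g, |(S.D a b).lg g y / S.c a b| ≤ C * (sz g + 1) := by
    intro a b
    have hc : (0 : ℝ) < S.c a b := by exact_mod_cast S.c_pos a b
    have hW := (S.D a b).R.Wt_nonneg
    refine ⟨(S.D a b).R.Wt * n / S.c a b, by positivity, fun y g => ?_⟩
    obtain ⟨k₁, hk₁, k₂, hk₂, H, e⟩ := svd g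
    have h1 : (S.D a b).lg g y = (S.D a b).lg (dg H 1 * k₂) y := by
      rw [e, mul_assoc, PDat.lg_SU _ hk₁]
    have h2 : sz g = sz (dg H 1) := by
      rw [e, mul_assoc, (sz_SU hk₁ _).1, (sz_SU hk₂ _).2]
    have h3 := S.lg_dg_le a b y hk₂ H
    have h4 := norm_le_sz_dg H
    have h5 := sz_nonneg (dg H 1)
    rw [h1, h2, abs_div, abs_of_pos hc, div_mul_eq_mul_div]
    refine div_le_div_of_nonneg_right (h3.trans ?_) hc.le
    calc (S.D a b).R.Wt * ‖H‖ ≤ (S.D a b).R.Wt * (n * sz (dg H 1)) :=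
          mul_le_mul_of_nonneg_left h4 hW
      _ ≤ (S.D a b).R.Wt * n * (sz (dg H 1) + 1) := by
          have : 0 ≤ (S.D a b).R.Wt * n := mul_nonneg hW (Nat.cast_nonneg n)
          nlinarith
  obtain ⟨C1, hC1, h1⟩ := key 1 0
  obtain ⟨C2, hC2, h2⟩ := key 0 0
  refine ⟨|a| * (C1 + C2) + |b| * C2 + (∑ i, |θ i|) * C0, fun y g => ?_⟩
  have e : S.lev a b θ y g = a * ((S.D 1 0).lg g y / S.c 1 0 - (S.D 0 0).lg g y / S.c 0 0) +
      b * ((S.D 0 0).lg g y / S.c 0 0) + ∑ i, θ i * hw g i := rfl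
  rw [e]
  refine (abs_add_le _ _).trans ((add_le_add (abs_add_le _ _) le_rfl).trans ?_)
  have h3 : |a * ((S.D 1 0).lg g y / S.c 1 0 - (S.D 0 0).lg g y / S.c 0 0)| ≤
      |a| * (C1 + C2) * (sz g + 1) := by
    rw [abs_mul, mul_assoc]
    refine mul_le_mul_of_nonneg_left ?_ (abs_nonneg _)
    refine (abs_sub _ _).trans ?_
    have := h1 y g
    have := h2 y g
    linarith
  have h4 : |b * ((S.D 0 0).lg g y / S.c 0 0)| ≤ |b| * C2 * (sz g + 1) := by
    rw [abs_mul, mul_assoc]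
    exact mul_le_mul_of_nonneg_left (h2 y g) (abs_nonneg _)
  have h5 : |∑ i, θ i * hw g i| ≤ (∑ i, |θ i|) * C0 * (sz g + 1) := by
    refine (Finset.abs_sum_le_sum_abs _ _).trans ?_
    rw [mul_assoc, Finset.sum_mul]
    refine Finset.sum_le_sum fun i _ => ?_
    rw [abs_mul]
    exact mul_le_mul_of_nonneg_left (hC0 g i) (abs_nonneg _)
  calc _ ≤ |a| * (C1 + C2) * (sz g + 1) + |b| * C2 * (sz g + 1) +
        (∑ i, |θ i|) * C0 * (sz g + 1) := add_le_add (add_le_add h3 h4) h5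
    _ = _ := by ring

end GSys

end Pool.Agent.SG
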