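import Pool.Agent.H.MP_e23cd6_ag.SG.S.Slope

/-!
# Semistability and stability in terms of the slopes
-/

set_option autoImplicit false

open Matrix Topology
open scoped Classical

namespace Pool.Agent.SG.St

variable {n : ℕ} {X : Type} [TopologicalSpace X]

theorem eq_zero_of_bdd {A C : ℝ} (h : ∀ t : ℝ, 0 ≤ t → |t * A| ≤ C) : A = 0 := by
  by_contra hA
  have hA' : 0 < |A| := abs_pos.2 hA
  have hC : 0 ≤ C := (abs_nonneg _).trans (h 0 le_rfl)
  have h1 := h ((C + 1) / |A|) (by positivity)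
  rw [abs_mul, abs_of_nonneg (by positivity : 0 ≤ (C + 1) / |A|), div_mul_cancel₀ _ hA'.ne'] at h1
  linarith

theorem nonneg_of_bdd {A C : ℝ} (h : ∀ t : ℝ, 0 ≤ t → -C ≤ t * A) : 0 ≤ A := by
  by_contra hA
  rw [not_le] at hA
  have h1 := h ((|C| + 1) / (-A)) (by
    have := abs_nonneg C
    exact div_nonneg (by linarith) (by linarith))
  have h2 : (|C| + 1) / (-A) * A = -(|C| + 1) := by
    have h3 : A ≠ 0 := hA.ne
    rw [div_mul_eq_mul_div, div_eq_iff (neg_ne_zero.2 h3)]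
    ring
  rw [h2] at h1
  have := le_abs_self C
  linarith

/-- The slope for `L ^ a ⊗ P ^ (b + 1)` in terms of those for `L` and `P`. -/
theorem sD_eq (S : GSys n X) (a b : ℕ) (y : X) (u : Gp n) (H : aa n) : sD S a b y u H =
    a * (sD S 1 0 y u H - sD S 0 0 y u H) + (b + 1) * sD S 0 0 y u H := by
  have hs : ∀ a b (t : ℝ), 0 ≤ t → sD S a b y u (t • H) = t * sD S a b y u H := by
    intro a b t ht
    unfold sD
    rw [mx_smul _ (fun i t H => lam_smul _ i t H) _ ht]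
    ring
  obtain ⟨C, hC⟩ := S.cmp a b
  obtain ⟨C1, h1⟩ := lg_bound S a b y u
  obtain ⟨C2, h2⟩ := lg_bound S 1 0 y u
  obtain ⟨C3, h3⟩ := lg_bound S 0 0 y u
  have key : sD S a b y u H - (a * (sD S 1 0 y u H - sD S 0 0 y u H) +
      (b + 1) * sD S 0 0 y u H) = 0 := by
    refine eq_zero_of_bdd (C := C + C1 + (a * (C2 + C3) + (b + 1) * C3)) fun t ht => ?_
    have e1 := hC (dg (t • H) 1 * u) y
    have e2 := h1 (t • H)
    have e3 := h2 (t • H)
    have e4 := h3 (t • H)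
    rw [hs _ _ t ht] at e2 e3 e4
    rw [abs_le] at e1 e2 e3 e4
    have ha : (0 : ℝ) ≤ a := Nat.cast_nonneg a
    have hb : (0 : ℝ) ≤ b := Nat.cast_nonneg b
    rw [abs_le]
    constructor
    · nlinarith [mul_le_mul_of_nonneg_left e3.1 ha, mul_le_mul_of_nonneg_left e3.2 ha,
        mul_le_mul_of_nonneg_left e4.1 ha, mul_le_mul_of_nonneg_left e4.2 ha,
        mul_le_mul_of_nonneg_left e4.1 hb, mul_le_mul_of_nonneg_left e4.2 hb]
    · nlinarith [mul_le_mul_of_nonneg_left e3.1 ha, mul_le_mul_of_nonneg_left e3.2 ha,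
        mul_le_mul_of_nonneg_left e4.1 ha, mul_le_mul_of_nonneg_left e4.2 ha,
        mul_le_mul_of_nonneg_left e4.1 hb, mul_le_mul_of_nonneg_left e4.2 hb]
  linarith

/-- The relative size of the `i`-th coordinate of `u v_y`. -/
noncomputable def rc (S : GSys n X) (a b : ℕ) (u : Gp n) (y : X) (i : (S.D a b).ι) : ℝ :=
  ‖(S.D a b).R.act u ((S.D a b).v y) i‖ ^ 2 / ns ((S.D a b).v y)

theorem rc_nonneg (S : GSys n X) (a b : ℕ) (u : Gp n) (y : X) (i : (S.D a b).ι) :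
    0 ≤ rc S a b u y i := div_nonneg (sq_nonneg _) (ns_nonneg _)

theorem rc_cont (S : GSys n X) (a b : ℕ) (i : (S.D a b).ι) :
    Continuous fun p : Gp n × X => rc S a b p.1 p.2 i := by
  have e : ∀ p : Gp n × X, rc S a b p.1 p.2 i = (∑ j, ∑ k, (S.D a b).R.ρ p.1 i j *
      star ((S.D a b).R.ρ p.1 i k) * ((S.D a b).v p.2 j * star ((S.D a b).v p.2 k) /
        (ns ((S.D a b).v p.2) : ℂ))).re := by
    intro p
    have h1 : ((rc S a b p.1 p.2 i : ℝ) : ℂ) = ∑ j, ∑ k, (S.D a b).R.ρ p.1 i j *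
      star ((S.D a b).R.ρ p.1 i k) * ((S.D a b).v p.2 j * star ((S.D a b).v p.2 k) /
        (ns ((S.D a b).v p.2) : ℂ)) := by
      unfold rc
      rw [Complex.ofReal_div, Complex.ofReal_pow, ← Complex.mul_conj']
      have h2 : (S.D a b).R.act p.1 ((S.D a b).v p.2) i =
          ∑ j, (S.D a b).R.ρ p.1 i j * (S.D a b).v p.2 j := rfl
      rw [h2, map_sum, Finset.sum_mul_sum, Finset.sum_div]
      refine Finset.sum_congr rfl fun j _ => ?_
      rw [Finset.sum_div]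
      refine Finset.sum_congr rfl fun k _ => ?_
      rw [map_mul]
      show _ * _ * (star _ * star _) / _ = _
      ring
    rw [← h1, Complex.ofReal_re]
  simp only [e]
  refine Complex.continuous_re.comp (continuous_finsetSum _ fun j _ =>
    continuous_finsetSum _ fun k _ => ?_)
  refine Continuous.mul (Continuous.mul ?_ ?_) ?_
  · exact ((S.D a b).R.cont.matrix_elem i j).comp continuous_fst
  · exact continuous_star.comp (((S.D a b).R.cont.matrix_elem i k).comp continuous_fst)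
  · exact ((S.D a b).contP j k).comp continuous_snd

/-- The level function along a real one-parameter group in terms of the relative sizes. -/
theorem lg_dg' (S : GSys n X) (a b : ℕ) (y : X) (u : Gp n) (H : aa n) :
    (S.D a b).lg (dg H 1 * u) y =
      Real.log (∑ i, rc S a b u y i * Real.exp (2 * (S.D a b).R.lam i H)) / 2 := by
  rw [lg_dg]
  have hns := ns_pos ((S.D a b).ne y)
  have h1 : (∑ i, rc S a b u y i * Real.exp (2 * (S.D a b).R.lam i H)) =
      (∑ i, ‖(S.D a b).R.act u ((S.D a b).v y) i‖ ^ 2 *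
        Real.exp (2 * (S.D a b).R.lam i H)) / ns ((S.D a b).v y) := by
    rw [Finset.sum_div]
    refine Finset.sum_congr rfl fun i _ => ?_
    unfold rc
    ring
  have h2 : 0 < ∑ i, ‖(S.D a b).R.act u ((S.D a b).v y) i‖ ^ 2 *
      Real.exp (2 * (S.D a b).R.lam i H) := by
    obtain ⟨i, hi⟩ := supD_nonempty S a b y u
    have hi' := (Finset.mem_filter.1 hi).2
    refine lt_of_lt_of_le (mul_pos (pow_pos (norm_pos_iff.2 hi') 2)
      (Real.exp_pos (2 * (S.D a b).R.lam i H))) ?_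
    exact Finset.single_le_sum (f := fun i => ‖(S.D a b).R.act u ((S.D a b).v y) i‖ ^ 2 *
      Real.exp (2 * (S.D a b).R.lam i H))
      (fun j _ => mul_nonneg (sq_nonneg _) (Real.exp_pos _).le) (Finset.mem_univ i)
  rw [h1, Real.log_div h2.ne' hns.ne']

theorem mnr_cont (j : ℕ) (a : Fin j → Fin n) : Continuous fun u : Gp n => mnr j u a := by
  unfold mnr
  refine Continuous.matrix_det (continuous_matrix fun p q => ?_)
  show Continuous fun u : Gp n => colE u (a p) q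
  unfold colE
  by_cases h : (q : ℕ) < n
  · simp only [dif_pos h]
    exact continuous_subtype_val.matrix_elem _ _
  · simp only [dif_neg h]
    exact continuous_const

/-- Near `(u₀, y₀)` the level function is bounded below by the slope function of `(u₀, y₀)`. -/
theorem local_lower (S : GSys n X) (a b : ℕ) {θ : Fin n → ℝ} (hθ : Antitone θ) (y₀ : X)
    (u₀ : Gp n) : ∃ O ∈ 𝓝 y₀, ∃ V ∈ 𝓝 u₀, ∃ C : ℝ, ∀ y ∈ O, ∀ u ∈ V, ∀ H : aa n,
      slope S a (b + 1) θ y₀ u₀ H - C ≤ S.lev a (b + 1) θ y (dg H 1 * u) := by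
  -- the line bundle
  obtain ⟨ε, hε, hεT⟩ : ∃ ε > 0, ∀ i ∈ supD S a b y₀ u₀, ε ≤ rc S a b u₀ y₀ i := by
    obtain ⟨i, hi, h⟩ := (supD S a b y₀ u₀).exists_min_image (rc S a b u₀ y₀)
      (supD_nonempty S a b y₀ u₀)
    refine ⟨rc S a b u₀ y₀ i, ?_, h⟩
    exact div_pos (pow_pos (norm_pos_iff.2 (Finset.mem_filter.1 hi).2) 2)
      (ns_pos ((S.D a b).ne y₀))
  have h1 : ∀ᶠ p : Gp n × X in 𝓝 (u₀, y₀), ∀ i ∈ supD S a b y₀ u₀,
      ε / 2 < rc S a b p.1 p.2 i := by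
    rw [Filter.eventually_all_finset]
    intro i hi
    refine (rc_cont S a b i).continuousAt.eventually_const_lt (u := ε / 2) ?_
    have := hεT i hi
    show ε / 2 < rc S a b u₀ y₀ i
    linarith
  -- the minors
  have h2 : ∀ j : Fin (n - 1), ∃ ε : ℝ, 0 < ε ∧ ∀ᶠ u : Gp n in 𝓝 u₀,
      ∀ a ∈ supT ((j : ℕ) + 1) u₀, ε < ‖mnr ((j : ℕ) + 1) u a‖ ^ 2 := by
    intro j
    obtain ⟨a, ha, h⟩ := (supT ((j : ℕ) + 1) u₀).exists_min_image
      (fun a => ‖mnr ((j : ℕ) + 1) u₀ a‖ ^ 2) (supT_nonempty (by omega) u₀)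
    have hpos : 0 < ‖mnr ((j : ℕ) + 1) u₀ a‖ ^ 2 :=
      pow_pos (norm_pos_iff.2 (Finset.mem_filter.1 ha).2) 2
    refine ⟨‖mnr ((j : ℕ) + 1) u₀ a‖ ^ 2 / 2, by positivity, ?_⟩
    rw [Filter.eventually_all_finset]
    intro a' ha'
    refine ((mnr_cont _ a').norm.pow 2).continuousAt.eventually_const_lt ?_
    have := h a' ha'
    show ‖mnr ((j : ℕ) + 1) u₀ a‖ ^ 2 / 2 < ‖mnr ((j : ℕ) + 1) u₀ a'‖ ^ 2
    linarith
  choose η hη hη2 using h2
  rw [nhds_prod_eq] at h1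
  obtain ⟨V1, hV1, O, hO, hVO⟩ := Filter.mem_prod_iff.1 h1
  obtain ⟨C1, hC1⟩ := S.cmp a b
  have hc : (0 : ℝ) < S.c a b := by exact_mod_cast S.c_pos a b
  refine ⟨O, hO, V1 ∩ ⋂ j : Fin (n - 1), {u | ∀ a ∈ supT ((j : ℕ) + 1) u₀,
    η j < ‖mnr ((j : ℕ) + 1) u a‖ ^ 2}, Filter.inter_mem hV1 ((Filter.iInter_mem).2 hη2),
    C1 + |Real.log (ε / 2)| / 2 / S.c a b + ∑ j : Fin (n - 1), kap θ j *
      ((|Real.log (η j)| + |Real.log ((((j : ℕ) + 1).factorial : ℕ) : ℝ)|) / 2),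
    fun y hy u hu H => ?_⟩
  obtain ⟨hu1, hu2⟩ := hu
  have hu3 : ∀ j : Fin (n - 1), ∀ a ∈ supT ((j : ℕ) + 1) u₀,
      η j < ‖mnr ((j : ℕ) + 1) u a‖ ^ 2 := fun j => Set.mem_iInter.1 hu2 j
  have hr : ∀ i ∈ supD S a b y₀ u₀, ε / 2 ≤ rc S a b u y i := fun i hi =>
    (hVO (Set.mk_mem_prod hu1 hy) i hi).le
  -- lower bound of the part of the line bundle
  have k1 : sD S a b y₀ u₀ H - |Real.log (ε / 2)| / 2 / S.c a b ≤
      (S.D a b).lg (dg H 1 * u) y / S.c a b := by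
    have h3 := le_log_sum (fun i H => (S.D a b).R.lam i H) (rc S a b u y) (rc_nonneg S a b u y)
      (supD_nonempty S a b y₀ u₀) (half_pos hε) hr H
    rw [lg_dg']
    unfold sD
    rw [← sub_div]
    refine div_le_div_of_nonneg_right ?_ hc.le
    have h4 := neg_abs_le (Real.log (ε / 2))
    linarith
  have k2 : ∀ j : Fin (n - 1), sT ((j : ℕ) + 1) u₀ H -
      (|Real.log (η j)| + |Real.log ((((j : ℕ) + 1).factorial : ℕ) : ℝ)|) / 2 ≤
      Real.log (TT ((j : ℕ) + 1) (dg H 1 * u)) / 2 := by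
    intro j
    have h3 := le_log_sum (fun (a : Fin ((j : ℕ) + 1) → Fin n) H => wT a H)
      (fun a => ‖mnr ((j : ℕ) + 1) u a‖ ^ 2) (fun a => sq_nonneg _)
      (supT_nonempty (by omega) u₀) (hη j) (fun a ha => (hu3 j a ha).le) H
    have h0 := TT_dg H 1 ((j : ℕ) + 1) u
    rw [Complex.ofReal_one] at h0
    have hf : (0 : ℝ) < ((((j : ℕ) + 1).factorial : ℕ) : ℝ) := by
      exact_mod_cast Nat.factorial_pos _
    have hs : (∑ a : Fin ((j : ℕ) + 1) → Fin n, ‖mnr ((j : ℕ) + 1) u a‖ ^ 2 *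
        Real.exp (2 * 1 * ∑ q, H.1 (a q))) =
        ∑ a : Fin ((j : ℕ) + 1) → Fin n, ‖mnr ((j : ℕ) + 1) u a‖ ^ 2 *
          Real.exp (2 * wT a H) := by
      refine Finset.sum_congr rfl fun a _ => ?_
      rw [mul_one]
      rfl
    rw [hs] at h0
    have hpos : 0 < ∑ a : Fin ((j : ℕ) + 1) → Fin n, ‖mnr ((j : ℕ) + 1) u a‖ ^ 2 *
        Real.exp (2 * wT a H) := by
      have h1 := TT_pos ((j : ℕ) + 1) (by omega) (dg H 1 * u)
      rw [h0] at h1
      by_contra hcon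
      exact absurd (div_nonpos_of_nonpos_of_nonneg (not_lt.1 hcon) hf.le) (not_le.2 h1)
    rw [h0, Real.log_div hpos.ne' hf.ne']
    have h4 := neg_abs_le (Real.log (η j))
    have h5 := le_abs_self (Real.log ((((j : ℕ) + 1).factorial : ℕ) : ℝ))
    have h6 : sT ((j : ℕ) + 1) u₀ H =
      mx (fun (a : Fin ((j : ℕ) + 1) → Fin n) H => wT a H) (supT ((j : ℕ) + 1) u₀) H := rfl
    rw [h6]
    linarith
  have k3 := hC1 (dg H 1 * u) y
  rw [abs_le] at k3
  have k4 : ∑ j : Fin (n - 1), kap θ j * (sT ((j : ℕ) + 1) u₀ H -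
      (|Real.log (η j)| + |Real.log ((((j : ℕ) + 1).factorial : ℕ) : ℝ)|) / 2) ≤
      ∑ j : Fin (n - 1), kap θ j * (Real.log (TT ((j : ℕ) + 1) (dg H 1 * u)) / 2) :=
    Finset.sum_le_sum fun j _ => mul_le_mul_of_nonneg_left (k2 j) (kap_nonneg hθ j)
  simp only [mul_sub, Finset.sum_sub_distrib] at k4
  have k5 : S.lev a (b + 1) θ y (dg H 1 * u) =
      (a * ((S.D 1 0).lg (dg H 1 * u) y / S.c 1 0 - (S.D 0 0).lg (dg H 1 * u) y / S.c 0 0) +
      (b + 1) * ((S.D 0 0).lg (dg H 1 * u) y / S.c 0 0)) +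
      ∑ j : Fin (n - 1), kap θ j * (Real.log (TT ((j : ℕ) + 1) (dg H 1 * u)) / 2) := by
    unfold GSys.lev
    rw [sum_hw]
    unfold GSys.fL GSys.fP
    ring
  have k6 : slope S a (b + 1) θ y₀ u₀ H = sD S a b y₀ u₀ H +
      ∑ j : Fin (n - 1), kap θ j * sT ((j : ℕ) + 1) u₀ H := by
    rw [sD_eq]
    rfl
  rw [k5, k6]
  linarith [k3.1, k3.2]

end Pool.Agent.SG.St
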