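import Pool.Agent.H.MP_e23cd6_ag.SG.S.Basic

/-!
# Semistability and stability in terms of the slopes, uniform growth
-/

set_option autoImplicit false

open Matrix Topology
open scoped Classical

namespace Pool.Agent.SG.St

variable {n : ℕ} {X : Type} [TopologicalSpace X]

theorem slope_nonneg_of_sst (S : GSys n X) {a b : ℝ} {θ : Fin n → ℝ} {y : X}
    (h : S.Sst a b θ y) (u : Gp n) (H : aa n) : 0 ≤ slope S a b θ y u H := by
  obtain ⟨C0, h0⟩ := h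
  obtain ⟨C, hC⟩ := lev_bound S a b θ y u
  refine nonneg_of_bdd (C := C - C0) fun t ht => ?_
  have h1 := (abs_le.1 (hC (t • H))).2
  rw [slope_smul S a b θ y u ht] at h1
  have h2 := h0 (dg (t • H) 1 * u)
  linarith

theorem slope_pos_of_stb (S : GSys n X) {a b : ℝ} {θ : Fin n → ℝ} {y : X}
    (h : S.Stb a b θ y) {u : Gp n} (hu : u ∈ SU n) {H : aa n} (hH : H ≠ 0) :
    0 < slope S a b θ y u H := by
  by_contra hcon
  rw [not_lt] at hcon
  obtain ⟨C, hC⟩ := lev_bound S a b θ y u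
  obtain ⟨R, hR⟩ := h C
  apply hH
  ext i
  have h1 : ∀ t : ℝ, 0 ≤ t → |t * H.1 i| ≤ n * R := by
    intro t ht
    have h2 := (abs_le.1 (hC (t • H))).2
    rw [slope_smul S a b θ y u ht] at h2
    have h3 : t * slope S a b θ y u H ≤ 0 := mul_nonpos_of_nonneg_of_nonpos ht hcon
    have h4 := hR (dg (t • H) 1 * u) (by linarith)
    rw [(sz_SU hu _).2] at h4
    exact ((sz_dg (t • H) i).1).trans (mul_le_mul_of_nonneg_left h4 (Nat.cast_nonneg n))
  exact eq_zero_of_bdd h1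

theorem sphere_bound {f : aa n → ℝ} (hf : Continuous f)
    (hs : ∀ t : ℝ, 0 ≤ t → ∀ H, f (t • H) = t * f H) (hpos : ∀ H, H ≠ 0 → 0 < f H) :
    ∃ δ > 0, ∀ H, δ * ‖H‖ ≤ f H := by
  have h0 : f 0 = 0 := by
    have := hs 0 le_rfl 0
    rwa [zero_smul, zero_mul] at this
  by_cases hne : (Metric.sphere (0 : aa n) 1).Nonempty
  · obtain ⟨H0, hH0, hmin⟩ := (isCompact_sphere (0 : aa n) 1).exists_isMinOn hne hf.continuousOn
    have hH0' : ‖H0‖ = 1 := mem_sphere_zero_iff_norm.1 hH0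
    have hne0 : H0 ≠ 0 := by
      intro e
      rw [e, norm_zero] at hH0'
      exact zero_ne_one hH0'
    refine ⟨f H0, hpos H0 hne0, fun H => ?_⟩
    by_cases hH : H = 0
    · rw [hH, norm_zero, mul_zero, h0]
    · have hn : 0 < ‖H‖ := norm_pos_iff.2 hH
      have h1 : ‖H‖⁻¹ • H ∈ Metric.sphere (0 : aa n) 1 := by
        rw [mem_sphere_zero_iff_norm, norm_smul, norm_inv, norm_norm, inv_mul_cancel₀ hn.ne']
      have h2 : f H0 ≤ f (‖H‖⁻¹ • H) := hmin h1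
      rw [hs _ (inv_nonneg.2 hn.le)] at h2
      have h3 := mul_le_mul_of_nonneg_right h2 hn.le
      rwa [mul_comm (‖H‖⁻¹), mul_assoc, inv_mul_cancel₀ hn.ne', mul_one] at h3
  · refine ⟨1, one_pos, fun H => ?_⟩
    by_cases hH : H = 0
    · rw [hH, norm_zero, mul_zero, h0]
    · have hn : 0 < ‖H‖ := norm_pos_iff.2 hH
      exact absurd ⟨‖H‖⁻¹ • H, by
        rw [mem_sphere_zero_iff_norm, norm_smul, norm_inv, norm_norm, inv_mul_cancel₀ hn.ne']⟩ hne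

theorem compact_SU (n : ℕ) : IsCompact (SU n : Set (Gp n)) :=
  isCompact_iff_compactSpace.2 (compactSpace_SU n)

/-- From a lower bound of all slopes to a uniform lower bound of the level function. -/
theorem lower_of_slope (S : GSys n X) (a b : ℕ) {θ : Fin n → ℝ} (hθ : Antitone θ) {y₀ : X}
    (e : ℝ) (he : 0 ≤ e)
    (h : ∀ u ∈ SU n, ∃ δ > 0, ∀ H, e * (δ * ‖H‖) ≤ slope S a (b + 1) θ y₀ u H) :
    ∃ O ∈ 𝓝 y₀, ∃ δ > 0, ∃ C : ℝ, ∀ y ∈ O, ∀ u ∈ SU n, ∀ H : aa n,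
      e * (δ * ‖H‖) - C ≤ S.lev a (b + 1) θ y (dg H 1 * u) := by
  refine (compact_SU n).induction_on
    (p := fun s => ∃ O ∈ 𝓝 y₀, ∃ δ > 0, ∃ C : ℝ, ∀ y ∈ O, ∀ u ∈ s, ∀ H : aa n,
      e * (δ * ‖H‖) - C ≤ S.lev a (b + 1) θ y (dg H 1 * u)) ?_ ?_ ?_ ?_
  · exact ⟨Set.univ, Filter.univ_mem, 1, one_pos, 0, fun y _ u hu => absurd hu (Set.notMem_empty u)⟩
  · rintro s t hst ⟨O, hO, δ, hδ, C, h⟩
    exact ⟨O, hO, δ, hδ, C, fun y hy u hu => h y hy u (hst hu)⟩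
  · rintro s t ⟨O, hO, δ, hδ, C, h⟩ ⟨O', hO', δ', hδ', C', h'⟩
    refine ⟨O ∩ O', Filter.inter_mem hO hO', min δ δ', lt_min hδ hδ', max C C',
      fun y hy u hu H => ?_⟩
    have hn := norm_nonneg H
    rcases hu with hu | hu
    · have h1 := h y hy.1 u hu H
      have h2 : e * (min δ δ' * ‖H‖) ≤ e * (δ * ‖H‖) :=
        mul_le_mul_of_nonneg_left (mul_le_mul_of_nonneg_right (min_le_left _ _) hn) he
      have h3 := le_max_left C C'
      linarith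
    · have h1 := h' y hy.2 u hu H
      have h2 : e * (min δ δ' * ‖H‖) ≤ e * (δ' * ‖H‖) :=
        mul_le_mul_of_nonneg_left (mul_le_mul_of_nonneg_right (min_le_right _ _) hn) he
      have h3 := le_max_right C C'
      linarith
  · intro u hu
    obtain ⟨δ, hδ, h1⟩ := h u hu
    obtain ⟨O, hO, V, hV, C, h2⟩ := local_lower S a b hθ y₀ u
    refine ⟨V, mem_nhdsWithin_of_mem_nhds hV, O, hO, δ, hδ, C, fun y hy u' hu' H => ?_⟩
    have h3 := h2 y hy u' hu' H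
    have h4 := h1 H
    linarith

theorem sst_of_slope (S : GSys n X) (a b : ℕ) {θ : Fin n → ℝ} (hθ : Antitone θ) {y₀ : X}
    (h : ∀ u ∈ SU n, ∀ H, 0 ≤ slope S a (b + 1) θ y₀ u H) :
    ∃ O ∈ 𝓝 y₀, ∃ C : ℝ, ∀ y ∈ O, ∀ g, C ≤ S.lev a (b + 1) θ y g := by
  obtain ⟨O, hO, δ, -, C, h1⟩ := lower_of_slope S a b hθ (y₀ := y₀) 0 le_rfl
    (fun u hu => ⟨1, one_pos, fun H => by
      rw [zero_mul]
      exact h u hu H⟩)
  refine ⟨O, hO, -C, fun y hy g => ?_⟩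
  obtain ⟨k₁, hk₁, k₂, hk₂, H, e⟩ := svd g
  have h2 := h1 y hy k₂ hk₂ H
  rw [e, mul_assoc, S.lev_SU _ _ _ _ _ hk₁]
  linarith

theorem growth_of_slope (S : GSys n X) (a b : ℕ) {θ : Fin n → ℝ} (hθ : Antitone θ) {y₀ : X}
    (h : ∀ u ∈ SU n, ∀ H, H ≠ 0 → 0 < slope S a (b + 1) θ y₀ u H) :
    ∃ O ∈ 𝓝 y₀, ∃ δ > 0, ∃ C : ℝ, ∀ y ∈ O, ∀ g, δ * sz g - C ≤ S.lev a (b + 1) θ y g := by
  obtain ⟨O, hO, δ, hδ, C, h1⟩ := lower_of_slope S a b hθ (y₀ := y₀) 1 zero_le_one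
    (fun u hu => by
      obtain ⟨δ, hδ, h2⟩ := sphere_bound (slope_cont S a (b + 1) θ y₀ u)
        (fun t ht H => slope_smul S a (b + 1) θ y₀ u ht H) (h u hu)
      exact ⟨δ, hδ, fun H => by
        rw [one_mul]
        exact h2 H⟩)
  refine ⟨O, hO, δ / (2 * n + 1), by positivity, C + δ * |Real.log n|, fun y hy g => ?_⟩
  obtain ⟨k₁, hk₁, k₂, hk₂, H, e⟩ := svd g
  have h2 := h1 y hy k₂ hk₂ H
  have h3 : sz g = sz (dg H 1) := by
    rw [e, mul_assoc, (sz_SU hk₁ _).1, (sz_SU hk₂ _).2]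
  have h4 := GSys.sz_dg_le H
  have h5 : S.lev a (b + 1) θ y g = S.lev a (b + 1) θ y (dg H 1 * k₂) := by
    rw [e, mul_assoc, S.lev_SU _ _ _ _ _ hk₁]
  rw [h5, h3]
  rw [one_mul] at h2
  have hn : (0 : ℝ) < 2 * n + 1 := by positivity
  have h6 : δ / (2 * n + 1) * sz (dg H 1) ≤ δ * ‖H‖ + δ * |Real.log n| := by
    rw [div_mul_eq_mul_div, div_le_iff₀ hn]
    have h7 : sz (dg H 1) ≤ (‖H‖ + |Real.log n|) * (2 * n + 1) := by
      have h8 := le_abs_self (Real.log n)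
      have h9 := abs_nonneg (Real.log n)
      have h10 := norm_nonneg H
      have h11 : (0 : ℝ) ≤ n := Nat.cast_nonneg n
      nlinarith [mul_nonneg h11 h9]
    have := mul_le_mul_of_nonneg_left h7 hδ.le
    linarith
  linarith

end Pool.Agent.SG.St

namespace Pool.Agent.SG

open St

variable {n : ℕ} {X : Type} [TopologicalSpace X]

theorem GSys.stb_of_growth (S : GSys n X) {a b : ℝ} {θ : Fin n → ℝ} {y : X} {δ C : ℝ} (hδ : 0 < δ)
    (h : ∀ g, δ * sz g - C ≤ S.lev a b θ y g) : S.Stb a b θ y := by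
  intro M
  refine ⟨(M + C) / δ, fun g hg => ?_⟩
  rw [le_div_iff₀ hδ]
  have := h g
  linarith

theorem GSys.stb_of_slope (S : GSys n X) (a b : ℕ) {θ : Fin n → ℝ} (hθ : Antitone θ) {y : X}
    (h : ∀ u ∈ SU n, ∀ H, H ≠ 0 → 0 < slope S a (b + 1) θ y u H) : S.Stb a (b + 1) θ y := by
  obtain ⟨O, hO, δ, hδ, C, h1⟩ := growth_of_slope S a b hθ h
  exact S.stb_of_growth hδ (h1 y (mem_of_mem_nhds hO))

/-- (4.2) -/
theorem GSys.growth (S : GSys n X) (a b : ℕ) {θ : Fin n → ℝ} (hθ : StrictAnti θ) {y₀ : X}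
    (h : S.Stb a (b + 1) θ y₀) : ∃ O ∈ 𝓝 y₀, ∃ δ η C : ℝ, 0 < δ ∧ 0 < η ∧
      ∀ y ∈ O, ∀ θ' : Fin n → ℝ, (∀ i, |θ' i - θ i| ≤ η) →
        ∀ g, δ * sz g - C ≤ S.lev a (b + 1) θ' y g := by
  obtain ⟨O, hO, δ, hδ, C, h1⟩ := growth_of_slope S a b hθ.antitone
    (fun u hu H hH => slope_pos_of_stb S h hu hH)
  obtain ⟨C0, hC0⟩ := hw_le_sz (n := n)
  set K : ℝ := 2 * (n * |C0| + 1) with hK
  have hKpos : 0 < K := by positivity
  refine ⟨O, hO, δ / 2, δ / K, C + δ / 2, by positivity, by positivity, fun y hy θ' hθ' g => ?_⟩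
  have h2 := h1 y hy g
  have h3 : S.lev a (b + 1) θ' y g = S.lev a (b + 1) θ y g + ∑ i, (θ' i - θ i) * hw g i := by
    unfold GSys.lev
    simp only [sub_mul, Finset.sum_sub_distrib]
    ring
  have hsz := sz_nonneg g
  have h4 : |∑ i, (θ' i - θ i) * hw g i| ≤ δ / 2 * (sz g + 1) := by
    calc |∑ i, (θ' i - θ i) * hw g i| ≤ ∑ i, |(θ' i - θ i) * hw g i| :=
          Finset.abs_sum_le_sum_abs _ _
      _ ≤ ∑ _i : Fin n, δ / K * (|C0| * (sz g + 1)) := by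
          refine Finset.sum_le_sum fun i _ => ?_
          rw [abs_mul]
          refine mul_le_mul (hθ' i) ((hC0 g i).trans ?_) (abs_nonneg _) (by positivity)
          exact mul_le_mul_of_nonneg_right (le_abs_self C0) (by linarith)
      _ = δ / K * (n * |C0|) * (sz g + 1) := by
          rw [Finset.sum_const, Finset.card_univ, Fintype.card_fin, nsmul_eq_mul]
          ring
      _ ≤ δ / 2 * (sz g + 1) := by
          refine mul_le_mul_of_nonneg_right ?_ (by linarith)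
          rw [div_mul_eq_mul_div, div_le_div_iff₀ hKpos two_pos]
          rw [hK]
          nlinarith
  have h5 := (abs_le.1 h4).1
  rw [h3]
  nlinarith

end Pool.Agent.SG
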