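import Mathlib

/-! Maxima of linear functions over finite sets, and logarithms of exponential sums. -/

set_option autoImplicit false

namespace Pool.Agent.SG.St

variable {α V : Type}

/-- The maximum of the functions `w a`, `a ∈ T` (zero if `T` is empty). -/
noncomputable def mx (w : α → V → ℝ) (T : Finset α) (H : V) : ℝ :=
  if h : T.Nonempty then T.sup' h (fun a => w a H) else 0

theorem le_mx (w : α → V → ℝ) {T : Finset α} {a : α} (ha : a ∈ T) (H : V) : w a H ≤ mx w T H := by
  unfold mx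
  rw [dif_pos ⟨a, ha⟩]
  exact Finset.le_sup' (fun a => w a H) ha

theorem exists_mx (w : α → V → ℝ) {T : Finset α} (hT : T.Nonempty) (H : V) :
    ∃ a ∈ T, mx w T H = w a H := by
  unfold mx
  rw [dif_pos hT]
  exact Finset.exists_mem_eq_sup' hT _

theorem mx_le (w : α → V → ℝ) {T : Finset α} (hT : T.Nonempty) (H : V) {C : ℝ}
    (h : ∀ a ∈ T, w a H ≤ C) : mx w T H ≤ C := by
  obtain ⟨a, ha, e⟩ := exists_mx w hT H
  rw [e]
  exact h a ha

theorem mx_mono (w : α → V → ℝ) {T T' : Finset α} (hT : T.Nonempty) (h : T ⊆ T') (H : V) :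
    mx w T H ≤ mx w T' H := by
  obtain ⟨a, ha, e⟩ := exists_mx w hT H
  rw [e]
  exact le_mx w (h ha) H

theorem abs_mx_le (w : α → V → ℝ) (T : Finset α) (H : V) {C : ℝ} (hC : 0 ≤ C)
    (h : ∀ a, |w a H| ≤ C) : |mx w T H| ≤ C := by
  by_cases hT : T.Nonempty
  · obtain ⟨a, -, e⟩ := exists_mx w hT H
    rw [e]
    exact h a
  · unfold mx
    rw [dif_neg hT, abs_zero]
    exact hC

theorem mx_smul [SMul ℝ V] (w : α → V → ℝ) (hw : ∀ a (t : ℝ) H, w a (t • H) = t * w a H)
    (T : Finset α) {t : ℝ} (ht : 0 ≤ t) (H : V) : mx w T (t • H) = t * mx w T H := by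
  by_cases hT : T.Nonempty
  · obtain ⟨a, ha, e⟩ := exists_mx w hT (t • H)
    obtain ⟨b, hb, e'⟩ := exists_mx w hT H
    apply le_antisymm
    · rw [e, hw]
      exact mul_le_mul_of_nonneg_left (le_mx w ha H) ht
    · rw [e', ← hw]
      exact le_mx w hb _
  · unfold mx
    rw [dif_neg hT, dif_neg hT, mul_zero]

theorem mx_cont [TopologicalSpace V] (w : α → V → ℝ) (hw : ∀ a, Continuous (w a))
    (T : Finset α) : Continuous (mx w T) := by
  by_cases hT : T.Nonempty
  · have e : mx w T = fun H => T.sup' hT (fun a => w a H) := by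
      funext H
      unfold mx
      rw [dif_pos hT]
    rw [e]
    exact Continuous.finset_sup'_apply hT fun a _ => hw a
  · have e : mx w T = fun _ => 0 := by
      funext H
      unfold mx
      rw [dif_neg hT]
    rw [e]
    exact continuous_const

variable [Fintype α]

/-- Upper bound of an exponential sum with the support in `T`. -/
theorem log_sum_le (w : α → V → ℝ) (c : α → ℝ) (hc : ∀ a, 0 ≤ c a) (T : Finset α)
    (hT : ∀ a, c a ≠ 0 → a ∈ T) (hpos : 0 < ∑ a, c a) (H : V) :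
    Real.log (∑ a, c a * Real.exp (2 * w a H)) ≤ 2 * mx w T H + Real.log (∑ a, c a) := by
  have h1 : ∑ a, c a * Real.exp (2 * w a H) ≤ Real.exp (2 * mx w T H) * ∑ a, c a := by
    rw [Finset.mul_sum]
    refine Finset.sum_le_sum fun a _ => ?_
    by_cases ha : c a = 0
    · rw [ha, zero_mul, mul_zero]
    · rw [mul_comm]
      refine mul_le_mul_of_nonneg_right (Real.exp_le_exp.2 ?_) (hc a)
      have := le_mx w (hT a ha) H
      linarith
  have h2 : 0 < ∑ a, c a * Real.exp (2 * w a H) := by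
    obtain ⟨a, -, ha⟩ := Finset.exists_ne_zero_of_sum_ne_zero hpos.ne'
    refine lt_of_lt_of_le (mul_pos (lt_of_le_of_ne (hc a) (Ne.symm ha))
      (Real.exp_pos (2 * w a H))) ?_
    exact Finset.single_le_sum (f := fun a => c a * Real.exp (2 * w a H))
      (fun b _ => mul_nonneg (hc b) (Real.exp_pos _).le) (Finset.mem_univ a)
  have h3 := Real.log_le_log h2 h1
  rwa [Real.log_mul (Real.exp_pos _).ne' hpos.ne', Real.log_exp] at h3

/-- Lower bound of an exponential sum whose coefficients are at least `ε` on `T`. -/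
theorem le_log_sum (w : α → V → ℝ) (c : α → ℝ) (hc : ∀ a, 0 ≤ c a) {T : Finset α}
    (hTn : T.Nonempty) {ε : ℝ} (hε : 0 < ε) (hT : ∀ a ∈ T, ε ≤ c a) (H : V) :
    2 * mx w T H + Real.log ε ≤ Real.log (∑ a, c a * Real.exp (2 * w a H)) := by
  obtain ⟨a, ha, e⟩ := exists_mx w hTn H
  have h1 : ε * Real.exp (2 * w a H) ≤ ∑ a, c a * Real.exp (2 * w a H) :=
    le_trans (mul_le_mul_of_nonneg_right (hT a ha) (Real.exp_pos _).le)
      (Finset.single_le_sum (f := fun a => c a * Real.exp (2 * w a H))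
        (fun b _ => mul_nonneg (hc b) (Real.exp_pos _).le) (Finset.mem_univ a))
  have h2 := Real.log_le_log (mul_pos hε (Real.exp_pos _)) h1
  rw [Real.log_mul hε.ne' (Real.exp_pos _).ne', Real.log_exp] at h2
  rw [e]
  linarith

/-- For finitely many positively homogeneous functions: those which are negative somewhere are
`≤ -d` at some point of the unit ball, with a uniform `d > 0`. -/
theorem fin_gap {σ V : Type} [Finite σ] [NormedAddCommGroup V] [NormedSpace ℝ V] (f : σ → V → ℝ)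
    (hf : ∀ s (t : ℝ) H, 0 ≤ t → f s (t • H) = t * f s H) :
    ∃ d > 0, ∀ s, (∃ H, f s H < 0) → ∃ H, ‖H‖ ≤ 1 ∧ f s H ≤ -d := by
  classical
  have key : ∀ s, ∃ d > 0, (∃ H, f s H < 0) → ∃ H, ‖H‖ ≤ 1 ∧ f s H ≤ -d := by
    intro s
    by_cases h : ∃ H, f s H < 0
    · obtain ⟨H, hH⟩ := h
      have h1 : 0 < 1 + ‖H‖ := by positivity
      refine ⟨(1 + ‖H‖)⁻¹ * (-(f s H)), mul_pos (inv_pos.2 h1) (by linarith), fun _ =>
        ⟨(1 + ‖H‖)⁻¹ • H, ?_, ?_⟩⟩
      · rw [norm_smul, norm_inv, Real.norm_of_nonneg h1.le, inv_mul_le_iff₀ h1]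
        linarith
      · rw [hf s _ H (inv_pos.2 h1).le]
        linarith
    · exact ⟨1, one_pos, fun h' => absurd h' h⟩
  choose d hd0 hd using key
  cases nonempty_fintype σ
  by_cases hne : Nonempty σ
  · refine ⟨Finset.univ.inf' Finset.univ_nonempty d, ?_, fun s hs => ?_⟩
    · exact (Finset.lt_inf'_iff _).2 fun s _ => hd0 s
    · obtain ⟨H, h1, h2⟩ := hd s hs
      refine ⟨H, h1, h2.trans ?_⟩
      have := Finset.inf'_le (s := Finset.univ) d (Finset.mem_univ s)
      linarith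
  · exact ⟨1, one_pos, fun s => absurd ⟨s⟩ hne⟩

end Pool.Agent.SG.St
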