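import Pool.Agent.H.MP_e23cd6_ag.SG.Sys
import Pool.Agent.H.MP_e23cd6_ag.SG.IfR
import Pool.Agent.H.MP_e23cd6_ag.SG.Var
import Pool.Agent.H.MP_e23cd6_ag.SG.S.Es

/-!
# Slopes of the level functions along real one-parameter groups

`slope a b θ y u H` is the slope at infinity of `s ↦ lev a b θ y (exp(s H) u)`.
-/

set_option autoImplicit false

open Matrix Topology
open scoped Classical

namespace Pool.Agent.SG.St

variable {n : ℕ} {X : Type} [TopologicalSpace X]

/-- The indices `i` with `(u v_y)_i ≠ 0`, for the level `L ^ a ⊗ P ^ (b + 1)`. -/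
noncomputable def supD (S : GSys n X) (a b : ℕ) (y : X) (u : Gp n) : Finset (S.D a b).ι :=
  Finset.univ.filter fun i => (S.D a b).R.act u ((S.D a b).v y) i ≠ 0

/-- The rows of the nonzero minors of the first `j` columns of `u`. -/
noncomputable def supT (j : ℕ) (u : Gp n) : Finset (Fin j → Fin n) :=
  Finset.univ.filter fun a => mnr j u a ≠ 0

/-- The weight of the minor with the rows `a`. -/
noncomputable def wT {j : ℕ} (a : Fin j → Fin n) (H : aa n) : ℝ := ∑ q, H.1 (a q)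

/-- The slope for `L ^ a ⊗ P ^ (b + 1)`. -/
noncomputable def sD (S : GSys n X) (a b : ℕ) (y : X) (u : Gp n) (H : aa n) : ℝ :=
  mx (fun i H => (S.D a b).R.lam i H) (supD S a b y u) H / S.c a b

/-- The slope for the minors of the first `j` columns. -/
noncomputable def sT (j : ℕ) (u : Gp n) (H : aa n) : ℝ := mx wT (supT j u) H

/-- The differences of successive exponents. -/
noncomputable def kap (θ : Fin n → ℝ) (j : Fin (n - 1)) : ℝ :=
  θ ⟨j, by omega⟩ - θ ⟨j + 1, by omega⟩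

/-- The slope for the real exponents `a`, `b` of `L`, `P` and `θ`. -/
noncomputable def slope (S : GSys n X) (a b : ℝ) (θ : Fin n → ℝ) (y : X) (u : Gp n) (H : aa n) :
    ℝ :=
  a * (sD S 1 0 y u H - sD S 0 0 y u H) + b * sD S 0 0 y u H +
    ∑ j : Fin (n - 1), kap θ j * sT ((j : ℕ) + 1) u H

theorem kap_nonneg {θ : Fin n → ℝ} (hθ : Antitone θ) (j : Fin (n - 1)) : 0 ≤ kap θ j := by
  unfold kap
  have h : θ ⟨j + 1, by omega⟩ ≤ θ ⟨j, by omega⟩ := hθ (Fin.mk_le_mk.2 (by omega))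
  linarith

theorem kap_pos {θ : Fin n → ℝ} (hθ : StrictAnti θ) (j : Fin (n - 1)) : 0 < kap θ j := by
  unfold kap
  have h : θ ⟨j + 1, by omega⟩ < θ ⟨j, by omega⟩ := hθ (Fin.mk_lt_mk.2 (by omega))
  linarith

/-- Summation by parts. -/
theorem sum_hw (θ : Fin n → ℝ) (g : Gp n) : ∑ i, θ i * hw g i =
    ∑ j : Fin (n - 1), kap θ j * (Real.log (TT ((j : ℕ) + 1) g) / 2) := by
  cases n with
  | zero => rfl
  | succ m =>
    have h1 : ∀ i : Fin (m + 1), θ i * hw g i = θ i * (Real.log (TT ((i : ℕ) + 1) g) / 2) -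
        θ i * (Real.log (TT (i : ℕ) g) / 2) := by
      intro i
      unfold hw
      ring
    simp only [h1]
    rw [Finset.sum_sub_distrib, Fin.sum_univ_castSucc, Fin.sum_univ_succ (n := m)
      (f := fun i => θ i * (Real.log (TT (i : ℕ) g) / 2))]
    have h2 : TT ((Fin.last m : ℕ) + 1) g = 1 := TT_top g
    have h3 : TT (((0 : Fin (m + 1)) : ℕ)) g = 1 := TT_zero g
    rw [h2, h3, Real.log_one, zero_div, mul_zero, add_zero, mul_zero, zero_add,
      ← Finset.sum_sub_distrib]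
    refine Finset.sum_congr rfl fun j _ => ?_
    have h4 : kap θ j = θ j.castSucc - θ j.succ := rfl
    rw [h4, Fin.val_succ, Fin.val_castSucc]
    ring

theorem ns_pos {ι : Type} [Fintype ι] {v : ι → ℂ} (h : v ≠ 0) : 0 < ns v :=
  lt_of_le_of_ne (ns_nonneg v) fun e => h (ns_eq_zero.1 e.symm)

theorem act_ne {ι : Type} [Fintype ι] [DecidableEq ι] (R : Rep n ι) (g : Gp n) {v : ι → ℂ}
    (h : v ≠ 0) : R.act g v ≠ 0 := by
  intro e
  apply h
  have := congrArg (R.act g⁻¹) e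
  rwa [← R.act_mul, inv_mul_cancel, R.act_one, R.act_zero] at this

theorem lam_smul {ι : Type} [Fintype ι] [DecidableEq ι] (R : Rep n ι) (i : ι) (t : ℝ) (H : aa n) :
    R.lam i (t • H) = t * R.lam i H := by
  unfold Rep.lam
  rw [Finset.mul_sum]
  refine Finset.sum_congr rfl fun j _ => ?_
  show (R.wt i j : ℝ) * (t * H.1 j) = _
  ring

theorem lam_cont {ι : Type} [Fintype ι] [DecidableEq ι] (R : Rep n ι) (i : ι) :
    Continuous (R.lam i) := by
  unfold Rep.lam
  exact continuous_finsetSum _ fun j _ =>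
    continuous_const.mul ((continuous_apply j).comp continuous_subtype_val)

theorem wT_smul {j : ℕ} (a : Fin j → Fin n) (t : ℝ) (H : aa n) : wT a (t • H) = t * wT a H := by
  unfold wT
  rw [Finset.mul_sum]
  rfl

theorem wT_cont {j : ℕ} (a : Fin j → Fin n) : Continuous (wT a : aa n → ℝ) := by
  unfold wT
  exact continuous_finsetSum _ fun q _ => (continuous_apply (a q)).comp continuous_subtype_val

theorem norm_le_aa (H : aa n) (j : Fin n) : |H.1 j| ≤ ‖H‖ := norm_le_pi_norm H.1 j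

theorem lam_abs_le {ι : Type} [Fintype ι] [DecidableEq ι] (R : Rep n ι) (i : ι) (H : aa n) :
    |R.lam i H| ≤ R.Wt * ‖H‖ := R.lam_le i H (norm_le_aa H) (norm_nonneg H)

theorem wT_abs_le {j : ℕ} (a : Fin j → Fin n) (H : aa n) : |wT a H| ≤ j * ‖H‖ := by
  unfold wT
  refine (Finset.abs_sum_le_sum_abs _ _).trans ?_
  refine (Finset.sum_le_sum fun q _ => norm_le_aa H (a q)).trans ?_
  rw [Finset.sum_const, Finset.card_univ, Fintype.card_fin, nsmul_eq_mul]

theorem slope_smul (S : GSys n X) (a b : ℝ) (θ : Fin n → ℝ) (y : X) (u : Gp n) {t : ℝ}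
    (ht : 0 ≤ t) (H : aa n) : slope S a b θ y u (t • H) = t * slope S a b θ y u H := by
  have h1 : ∀ a b, sD S a b y u (t • H) = t * sD S a b y u H := by
    intro a b
    unfold sD
    rw [mx_smul _ (fun i t H => lam_smul _ i t H) _ ht]
    ring
  have h2 : ∀ j, sT j u (t • H) = t * sT j u H := fun j => mx_smul _ (fun a t H => wT_smul a t H) _ ht H
  unfold slope
  simp only [h1, h2]
  rw [mul_add, mul_add, Finset.mul_sum]
  congr 1
  · ring
  · exact Finset.sum_congr rfl fun j _ => by ring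

theorem slope_zero (S : GSys n X) (a b : ℝ) (θ : Fin n → ℝ) (y : X) (u : Gp n) :
    slope S a b θ y u 0 = 0 := by
  have h := slope_smul S a b θ y u (le_refl (0 : ℝ)) 0
  rwa [zero_smul, zero_mul] at h

theorem slope_cont (S : GSys n X) (a b : ℝ) (θ : Fin n → ℝ) (y : X) (u : Gp n) :
    Continuous (slope S a b θ y u) := by
  have h1 : ∀ a b, Continuous (sD S a b y u) := fun a b =>
    (mx_cont _ (fun i => lam_cont _ i) _).div_const _
  have h2 : ∀ j, Continuous (sT j u) := fun j => mx_cont _ (fun a => wT_cont a) _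
  unfold slope
  exact ((continuous_const.mul ((h1 1 0).sub (h1 0 0))).add (continuous_const.mul (h1 0 0))).add
    (continuous_finsetSum _ fun j _ => continuous_const.mul (h2 _))

/-- The level function along a real one-parameter group, for one line bundle. -/
theorem lg_dg (S : GSys n X) (a b : ℕ) (y : X) (u : Gp n) (H : aa n) :
    (S.D a b).lg (dg H 1 * u) y = (Real.log (∑ i, ‖(S.D a b).R.act u ((S.D a b).v y) i‖ ^ 2 *
      Real.exp (2 * (S.D a b).R.lam i H)) - Real.log (ns ((S.D a b).v y))) / 2 := by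
  unfold PDat.lg
  have h := (S.D a b).R.ns_act_dg H 1 ((S.D a b).R.act u ((S.D a b).v y))
  rw [Complex.ofReal_one] at h
  have h' : (∑ i, Real.exp (2 * 1 * (S.D a b).R.lam i H) *
      ‖(S.D a b).R.act u ((S.D a b).v y) i‖ ^ 2) =
      ∑ i, ‖(S.D a b).R.act u ((S.D a b).v y) i‖ ^ 2 *
        Real.exp (2 * (S.D a b).R.lam i H) :=
    Finset.sum_congr rfl fun i _ => by rw [mul_one, mul_comm]
  rw [(S.D a b).R.act_mul, h, h']

theorem supD_nonempty (S : GSys n X) (a b : ℕ) (y : X) (u : Gp n) : (supD S a b y u).Nonempty := by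
  obtain ⟨i, hi⟩ := Function.ne_iff.1 (act_ne (S.D a b).R u ((S.D a b).ne y))
  exact ⟨i, Finset.mem_filter.2 ⟨Finset.mem_univ _, hi⟩⟩

theorem supT_nonempty {j : ℕ} (hj : j ≤ n) (u : Gp n) : (supT j u).Nonempty := by
  by_contra h
  rw [Finset.not_nonempty_iff_eq_empty] at h
  have h1 := TT_pos j hj u
  have h2 : ∀ a : Fin j → Fin n, mnr j u a = 0 := by
    intro a
    by_contra ha
    have : a ∈ supT j u := Finset.mem_filter.2 ⟨Finset.mem_univ _, ha⟩
    rw [h] at this
    exact absurd this (Finset.notMem_empty _)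
  unfold TT at h1
  simp [h2] at h1

/-- Bounds for an exponential sum over its support. -/
theorem es_bound {α : Type} [Fintype α] (w : α → aa n → ℝ) (c : α → ℝ) (hc : ∀ a, 0 ≤ c a)
    (T : Finset α) (hT : ∀ a, a ∈ T ↔ c a ≠ 0) (hTn : T.Nonempty) : ∃ C : ℝ, ∀ H,
      |Real.log (∑ a, c a * Real.exp (2 * w a H)) / 2 - mx w T H| ≤ C := by
  obtain ⟨ε, hε, hεT⟩ : ∃ ε > 0, ∀ a ∈ T, ε ≤ c a := by
    obtain ⟨a, ha, h⟩ := T.exists_min_image c hTn
    exact ⟨c a, lt_of_le_of_ne (hc a) (Ne.symm ((hT a).1 ha)), h⟩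
  have hpos : 0 < ∑ a, c a := by
    obtain ⟨a, ha⟩ := hTn
    exact lt_of_lt_of_le (lt_of_lt_of_le hε (hεT a ha))
      (Finset.single_le_sum (fun b _ => hc b) (Finset.mem_univ a))
  refine ⟨|Real.log (∑ a, c a)| + |Real.log ε|, fun H => ?_⟩
  have h1 := log_sum_le w c hc T (fun a ha => (hT a).2 ha) hpos H
  have h2 := le_log_sum w c hc hTn hε hεT H
  have h3 := le_abs_self (Real.log (∑ a, c a))
  have h4 := neg_abs_le (Real.log ε)
  have h5 := abs_nonneg (Real.log (∑ a, c a))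
  have h6 := abs_nonneg (Real.log ε)
  rw [abs_le]
  constructor <;> linarith

theorem lg_bound (S : GSys n X) (a b : ℕ) (y : X) (u : Gp n) : ∃ C : ℝ, ∀ H : aa n,
    |(S.D a b).lg (dg H 1 * u) y / S.c a b - sD S a b y u H| ≤ C := by
  obtain ⟨C, hC⟩ := es_bound (fun i H => (S.D a b).R.lam i H)
    (fun i => ‖(S.D a b).R.act u ((S.D a b).v y) i‖ ^ 2) (fun i => sq_nonneg _)
    (supD S a b y u) (fun i => by
      unfold supD
      rw [Finset.mem_filter]
      simp) (supD_nonempty S a b y u)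
  have hc : (0 : ℝ) < S.c a b := by exact_mod_cast S.c_pos a b
  refine ⟨(C + |Real.log (ns ((S.D a b).v y)) / 2|) / S.c a b, fun H => ?_⟩
  unfold sD
  rw [← sub_div, abs_div, abs_of_pos hc]
  refine div_le_div_of_nonneg_right ?_ hc.le
  rw [lg_dg, sub_div]
  have h1 := hC H
  have h2 := abs_sub (Real.log (∑ i, ‖(S.D a b).R.act u ((S.D a b).v y) i‖ ^ 2 *
      Real.exp (2 * (S.D a b).R.lam i H)) / 2 -
      mx (fun i H => (S.D a b).R.lam i H) (supD S a b y u) H)
    (Real.log (ns ((S.D a b).v y)) / 2)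
  refine le_trans (le_of_eq ?_) (h2.trans (add_le_add h1 le_rfl))
  congr 1
  ring

theorem logTT_bound {j : ℕ} (hj : j ≤ n) (u : Gp n) : ∃ C : ℝ, ∀ H : aa n,
    |Real.log (TT j (dg H 1 * u)) / 2 - sT j u H| ≤ C := by
  obtain ⟨C, hC⟩ := es_bound (fun (a : Fin j → Fin n) H => wT a H)
    (fun a => ‖mnr j u a‖ ^ 2) (fun i => sq_nonneg _)
    (supT j u) (fun i => by
      unfold supT
      rw [Finset.mem_filter]
      simp) (supT_nonempty hj u)
  refine ⟨C + |Real.log (j.factorial : ℝ) / 2|, fun H => ?_⟩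
  have h0 := TT_dg H 1 j u
  rw [Complex.ofReal_one] at h0
  have hf : (0 : ℝ) < (j.factorial : ℝ) := by exact_mod_cast j.factorial_pos
  have hs : (∑ a : Fin j → Fin n, ‖mnr j u a‖ ^ 2 * Real.exp (2 * 1 * ∑ q, H.1 (a q))) =
      ∑ a : Fin j → Fin n, ‖mnr j u a‖ ^ 2 * Real.exp (2 * wT a H) := by
    refine Finset.sum_congr rfl fun a _ => ?_
    rw [mul_one]
    rfl
  rw [hs] at h0
  have hpos : 0 < ∑ a : Fin j → Fin n, ‖mnr j u a‖ ^ 2 * Real.exp (2 * wT a H) := by
    have h1 := TT_pos j hj (dg H 1 * u)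
    rw [h0] at h1
    by_contra hcon
    exact absurd (div_nonpos_of_nonpos_of_nonneg (not_lt.1 hcon) hf.le) (not_le.2 h1)
  rw [h0, Real.log_div hpos.ne' hf.ne']
  have h1 := hC H
  have h2 := abs_sub (Real.log (∑ a : Fin j → Fin n, ‖mnr j u a‖ ^ 2 *
      Real.exp (2 * wT a H)) / 2 - mx (fun (a : Fin j → Fin n) H => wT a H) (supT j u) H)
    (Real.log (j.factorial : ℝ) / 2)
  refine le_trans (le_of_eq ?_) (h2.trans (add_le_add h1 le_rfl))
  unfold sT
  congr 1
  ring

/-- The level function differs from its slope function by a bounded function. -/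
theorem lev_bound (S : GSys n X) (a b : ℝ) (θ : Fin n → ℝ) (y : X) (u : Gp n) : ∃ C : ℝ,
    ∀ H : aa n, |S.lev a b θ y (dg H 1 * u) - slope S a b θ y u H| ≤ C := by
  obtain ⟨C1, h1⟩ := lg_bound S 1 0 y u
  obtain ⟨C0, h0⟩ := lg_bound S 0 0 y u
  have h2 : ∀ j : Fin (n - 1), ∃ C : ℝ, ∀ H : aa n,
      |Real.log (TT ((j : ℕ) + 1) (dg H 1 * u)) / 2 - sT ((j : ℕ) + 1) u H| ≤ C :=
    fun j => logTT_bound (by omega) u
  choose C2 h2 using h2
  refine ⟨|a| * (C1 + C0) + |b| * C0 + ∑ j, |kap θ j| * C2 j, fun H => ?_⟩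
  have e : S.lev a b θ y (dg H 1 * u) - slope S a b θ y u H =
      a * (((S.D 1 0).lg (dg H 1 * u) y / S.c 1 0 - sD S 1 0 y u H) -
        ((S.D 0 0).lg (dg H 1 * u) y / S.c 0 0 - sD S 0 0 y u H)) +
      b * ((S.D 0 0).lg (dg H 1 * u) y / S.c 0 0 - sD S 0 0 y u H) +
      ∑ j : Fin (n - 1), kap θ j *
        (Real.log (TT ((j : ℕ) + 1) (dg H 1 * u)) / 2 - sT ((j : ℕ) + 1) u H) := by
    unfold GSys.lev slope
    rw [sum_hw]
    unfold GSys.fL GSys.fP
    simp only [mul_sub, Finset.sum_sub_distrib]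
    ring
  rw [e]
  refine (abs_add_le _ _).trans (add_le_add ((abs_add_le _ _).trans (add_le_add ?_ ?_)) ?_)
  · rw [abs_mul]
    exact mul_le_mul_of_nonneg_left ((abs_sub _ _).trans (add_le_add (h1 H) (h0 H)))
      (abs_nonneg _)
  · rw [abs_mul]
    exact mul_le_mul_of_nonneg_left (h0 H) (abs_nonneg _)
  · refine (Finset.abs_sum_le_sum_abs _ _).trans (Finset.sum_le_sum fun j _ => ?_)
    rw [abs_mul]
    exact mul_le_mul_of_nonneg_left (h2 j H) (abs_nonneg _)

end Pool.Agent.SG.St
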